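import Pool.Agent.Work.MP_46fa68_h48.P04
import Pool.Agent.Work.MP_46fa68_h48.P16
import Pool.Agent.Work.MP_46fa68_h48.P18
import Pool.Agent.Work.MP_46fa68_h48.P19
import Pool.Agent.Work.MP_46fa68_h48.P20

/-!
# MP_46fa68_co: the certificates at the threshold for `4 ≤ m ≤ 20`
-/

set_option autoImplicit false

namespace Pool.JM

/-- **The thresholds for `4 ≤ m ≤ 20`**, by the certificates. -/
theorem threshold_small (m : ℕ) (h4 : 4 ≤ m) (h20 : m ≤ 20) : Threshold m := by
  interval_cases m
  · exact Pack.threshold_4
  · exact Pack.threshold_5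
  · exact Pack.threshold_6
  · exact Pack.threshold_7
  · exact Pack.threshold_8
  · exact Pack.threshold_9
  · exact Pack.threshold_10
  · exact Pack.threshold_11
  · exact Pack.threshold_12
  · exact Pack.threshold_13
  · exact Pack.threshold_14
  · exact Pack.threshold_15
  · exact Pack.threshold_16
  · exact Pack.threshold_17
  · exact Pack.threshold_18
  · exact Pack.threshold_19
  · exact Pack.threshold_20

end Pool.JM
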