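import Pool.Agent.Work.MP_46fa68_T.Op
import Pool.Agent.Work.MP_46fa68_85.Reduce

/-!
# MP_46fa68_co: certificates checked by the kernel, small `m = n - t`

A trie `T` holds a function on sets of beads with natural values (`ev`). `d` is the operator adding a box,
`up p` the operator removing a box, both on tries. If the `t`-th iterate of `d` on a trie with positive values
on the shapes of `m + t` boxes below the wall is `D` times the numbers of standard tableaux of the shapes of
`m` boxes, computed by `up`, then the theorem on the maximum-sized families holds for `n = m + t'`, `t' ≤ t`.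
-/

set_option autoImplicit false

open Finset

namespace Pool.JM.Cert

/-- tries of sets of beads with natural values -/
inductive T where
  | z : T
  | o : ℕ → T
  | n : T → T → T

open T

/-- add the value `v` at the full set -/
noncomputable def addo (v : ℕ) : T → T :=
  T.rec (o v) (fun w => o (Nat.add v w)) (fun a _ _ rb => n a rb)

/-- sum of two tries -/
noncomputable def add : T → T → T :=
  T.rec (fun t => t) (fun v t => addo v t)
    (fun a b ra rb t => T.rec (n a b) (fun v => n a (addo v b)) (fun c e _ _ => n (ra c) (rb e)) t)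

/-- the branch without the top position -/
noncomputable def br0 : T → T := T.rec z (fun _ => z) (fun a _ _ _ => a)

/-- the branch with the top position -/
noncomputable def br1 : T → T := T.rec z (fun v => o v) (fun _ b _ _ => b)

/-- only the branch with the top position -/
noncomputable def mk1 : T → T := T.rec z (fun v => o v) (fun a b _ _ => n z (n a b))

/-- only the branch without the top position -/
noncomputable def mk0 : T → T := T.rec z (fun v => n (o v) z) (fun a b _ _ => n (n a b) z)

/-- the trie with two given branches -/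
noncomputable def mk (s t : T) : T :=
  T.rec (mk1 t) (fun v => n (o v) t) (fun a b _ _ => n (n a b) t) s

/-- the operator adding a box -/
noncomputable def d : T → T :=
  T.rec z (fun _ => z) (fun _ b da db => mk (add da (mk1 (br0 b))) db)

/-- the operator removing a box -/
noncomputable def up : ℕ → T → T :=
  Nat.rec (fun _ => z) (fun p ih t => T.rec z (fun _ => z)
    (fun a b _ _ => mk (ih a) (add (ih b) (Nat.rec z (fun _ _ => mk0 (br1 a)) p))) t)

/-- iterates of `d` -/
noncomputable def di (k : ℕ) (t : T) : T := Nat.rec t (fun _ r => d r) k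

/-- iterates of `up` -/
noncomputable def ui (p k : ℕ) (t : T) : T := Nat.rec t (fun _ r => up p r) k

/-- the trie of the empty shape, `j` positions above -/
noncomputable def t0 (j : ℕ) : T := Nat.rec (o 1) (fun _ r => n r z) j

/-- the height is at most `p` -/
noncomputable def wf : T → ℕ → Bool :=
  T.rec (fun _ => true) (fun _ _ => true)
    (fun _ _ ra rb p => Nat.rec false (fun q _ => cond (ra q) (rb q) false) p)

/-- the first trie is `D` times the second -/
noncomputable def eqs (D : ℕ) : T → T → Bool :=
  T.rec (fun t => T.rec true (fun _ => false) (fun _ _ _ _ => false) t)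
    (fun v t => T.rec false (fun w => Nat.beq v (Nat.mul D w)) (fun _ _ _ _ => false) t)
    (fun _ _ ra rb t => T.rec false (fun _ => false) (fun c e _ _ => cond (ra c) (rb e) false) t)

/-- the value is positive at all sets of `k` beads below `p` and of displacement `r` -/
noncomputable def full : T → ℕ → ℕ → ℕ → Bool :=
  T.rec
    (fun p k r => cond (Nat.ble k p) (Nat.ble (Nat.succ (Nat.mul k (Nat.sub p k))) r) true)
    (fun v p k r => cond (Nat.beq k p) (Nat.ble 1 v)
      (cond (Nat.ble k p) (Nat.ble (Nat.succ (Nat.mul k (Nat.sub p k))) r) true))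
    (fun _ _ ra rb p k r => Nat.rec false (fun q _ => cond (ra q k r)
      (Nat.rec true (fun k' _ => cond (Nat.ble (Nat.sub q k') r)
        (rb q k' (Nat.sub r (Nat.sub q k'))) true) k) false) p)

/-! ### packed data -/

/-- reads the values of all sets of `k` beads below `p` with displacement `r` from the digits of `s` in
base `W`; the second part is what is left of `s` -/
noncomputable def bd (W : ℕ) : ℕ → ℕ → ℕ → ℕ → Prod T ℕ :=
  Nat.rec (fun _ _ s => Prod.mk (o (Nat.mod s W)) (Nat.div s W))
    (fun p ih k r s => cond (Nat.beq k (Nat.succ p)) (Prod.mk (o (Nat.mod s W)) (Nat.div s W))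
      (Nat.rec ((fun A => Prod.mk (n (Prod.fst A) z) (Prod.snd A)) (ih 0 r s))
        (fun k' _ => cond (Nat.ble r (Nat.mul (Nat.succ k') (Nat.sub p (Nat.succ k'))))
          (cond (Nat.ble (Nat.sub p k') r)
            ((fun A => (fun B => Prod.mk (n (Prod.fst A) (Prod.fst B)) (Prod.snd B))
              (ih k' (Nat.sub r (Nat.sub p k')) (Prod.snd A))) (ih (Nat.succ k') r s))
            ((fun A => Prod.mk (n (Prod.fst A) z) (Prod.snd A)) (ih (Nat.succ k') r s)))
          ((fun B => Prod.mk (n z (Prod.fst B)) (Prod.snd B))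
            (ih k' (Nat.sub r (Nat.sub p k')) s))) k))

/-- the trie read from `s` -/
noncomputable def bt (W p k r s : ℕ) : T := Prod.fst (bd W p k r s)

/-! ### values -/

/-- the value at a set of beads; only the positions below `p` count -/
noncomputable def ev (t : T) : ℕ → Finset ℕ → ℕ :=
  T.rec (fun _ _ => 0) (fun v p B => if range p ⊆ B then v else 0)
    (fun _ _ ra rb p B => Nat.rec 0 (fun q _ => if q ∈ B then rb q B else ra q B) p) t

theorem ev_z (p : ℕ) (B : Finset ℕ) : ev z p B = 0 := rfl

theorem ev_o (v p : ℕ) (B : Finset ℕ) : ev (o v) p B = if range p ⊆ B then v else 0 := rfl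

theorem ev_n0 (a b : T) (B : Finset ℕ) : ev (n a b) 0 B = 0 := rfl

theorem ev_n (a b : T) (q : ℕ) (B : Finset ℕ) :
    ev (n a b) (q + 1) B = if q ∈ B then ev b q B else ev a q B := rfl

theorem wf_n0 {a b : T} : ¬ wf (n a b) 0 = true := by
  change ¬ (false = true)
  exact Bool.false_ne_true

theorem wf_n {a b : T} {q : ℕ} : wf (n a b) (q + 1) = true ↔ wf a q = true ∧ wf b q = true := by
  change cond (wf a q) (wf b q) false = true ↔ _
  cases wf a q <;> simp

theorem wf_z (p : ℕ) : wf z p = true := rfl

theorem wf_o (v p : ℕ) : wf (o v) p = true := rfl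

theorem range_succ_sub {q : ℕ} {B : Finset ℕ} (h : q ∈ B) : range (q + 1) ⊆ B ↔ range q ⊆ B := by
  constructor
  · intro h1 x hx
    exact h1 (mem_range.2 (lt_trans (mem_range.1 hx) (Nat.lt_succ_self q)))
  · intro h1 x hx
    rcases Nat.lt_succ_iff_lt_or_eq.1 (mem_range.1 hx) with h2 | h2
    · exact h1 (mem_range.2 h2)
    · exact h2 ▸ h

theorem range_succ_not {q : ℕ} {B : Finset ℕ} (h : q ∉ B) : ¬ range (q + 1) ⊆ B :=
  fun h1 => h (h1 (mem_range.2 (Nat.lt_succ_self q)))

theorem ev_congr : ∀ (t : T) (p : ℕ) (B C : Finset ℕ), (∀ x < p, (x ∈ B ↔ x ∈ C)) →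
    ev t p B = ev t p C := by
  intro t
  induction t with
  | z => intro p B C _; rfl
  | o v =>
    intro p B C h
    rw [ev_o, ev_o]
    have : range p ⊆ B ↔ range p ⊆ C :=
      ⟨fun h1 x hx => (h x (mem_range.1 hx)).1 (h1 hx),
        fun h1 x hx => (h x (mem_range.1 hx)).2 (h1 hx)⟩
    simp only [this]
  | n a b iha ihb =>
    intro p B C h
    cases p with
    | zero => rfl
    | succ q =>
      rw [ev_n, ev_n, iha q B C fun x hx => h x (by omega), ihb q B C fun x hx => h x (by omega)]
      simp only [h q (Nat.lt_succ_self q)]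

theorem wf_addo (v : ℕ) : ∀ (t : T) (p : ℕ), wf t p = true → wf (addo v t) p = true := by
  intro t
  induction t with
  | z => intro p _; rfl
  | o w => intro p _; rfl
  | n a b _ ihb =>
    intro p h
    cases p with
    | zero => exact absurd h wf_n0
    | succ q =>
      rw [wf_n] at h
      change wf (n a (addo v b)) (q + 1) = true
      rw [wf_n]
      exact ⟨h.1, ihb q h.2⟩

theorem ev_addo (v : ℕ) : ∀ (t : T) (p : ℕ) (B : Finset ℕ), wf t p = true →
    ev (addo v t) p B = (if range p ⊆ B then v else 0) + ev t p B := by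
  intro t
  induction t with
  | z => intro p B _; rfl
  | o w =>
    intro p B _
    change (if range p ⊆ B then v + w else 0) = _
    rw [ev_o]
    split_ifs <;> rfl
  | n a b _ ihb =>
    intro p B h
    cases p with
    | zero => exact absurd h wf_n0
    | succ q =>
      rw [wf_n] at h
      change ev (n a (addo v b)) (q + 1) B = _
      rw [ev_n, ev_n, ihb q B h.2]
      by_cases hq : q ∈ B
      · rw [if_pos hq, if_pos hq]
        simp only [range_succ_sub hq]
      · rw [if_neg hq, if_neg hq, if_neg (range_succ_not hq), zero_add]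

theorem wf_add : ∀ (s t : T) (p : ℕ), wf s p = true → wf t p = true → wf (add s t) p = true := by
  intro s
  induction s with
  | z => intro t p _ h; exact h
  | o v => intro t p _ h; exact wf_addo v t p h
  | n a b iha ihb =>
    intro t p hs h
    cases t with
    | z => exact hs
    | o v =>
      cases p with
      | zero => exact absurd hs wf_n0
      | succ q =>
        rw [wf_n] at hs
        change wf (n a (addo v b)) (q + 1) = true
        rw [wf_n]
        exact ⟨hs.1, wf_addo v b q hs.2⟩
    | n c e =>
      cases p with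
      | zero => exact absurd hs wf_n0
      | succ q =>
        rw [wf_n] at hs h
        change wf (n (add a c) (add b e)) (q + 1) = true
        rw [wf_n]
        exact ⟨iha c q hs.1 h.1, ihb e q hs.2 h.2⟩

theorem ev_add : ∀ (s t : T) (p : ℕ) (B : Finset ℕ), wf s p = true → wf t p = true →
    ev (add s t) p B = ev s p B + ev t p B := by
  intro s
  induction s with
  | z => intro t p B _ h; change ev t p B = 0 + ev t p B; rw [zero_add]
  | o v => intro t p B _ h; exact ev_addo v t p B h
  | n a b iha ihb =>
    intro t p B hs h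
    cases t with
    | z => rfl
    | o v =>
      cases p with
      | zero => exact absurd hs wf_n0
      | succ q =>
        rw [wf_n] at hs
        change ev (n a (addo v b)) (q + 1) B = _
        rw [ev_n, ev_n, ev_addo v b q B hs.2, ev_o]
        by_cases hq : q ∈ B
        · rw [if_pos hq, if_pos hq, add_comm]
          simp only [range_succ_sub hq]
        · rw [if_neg hq, if_neg hq, if_neg (range_succ_not hq), add_zero]
    | n c e =>
      cases p with
      | zero => exact absurd hs wf_n0
      | succ q =>
        rw [wf_n] at hs h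
        change ev (n (add a c) (add b e)) (q + 1) B = _
        rw [ev_n, ev_n, ev_n, iha c q B hs.1 h.1, ihb e q B hs.2 h.2]
        split_ifs <;> rfl

theorem wf_br0 {t : T} {q : ℕ} (h : wf t (q + 1) = true) : wf (br0 t) q = true := by
  cases t with
  | z => rfl
  | o v => rfl
  | n a b => exact (wf_n.1 h).1

theorem wf_br1 {t : T} {q : ℕ} (h : wf t (q + 1) = true) : wf (br1 t) q = true := by
  cases t with
  | z => rfl
  | o v => rfl
  | n a b => exact (wf_n.1 h).2

theorem ev_br0 (t : T) {q : ℕ} {B : Finset ℕ} (h : q ∉ B) : ev (br0 t) q B = ev t (q + 1) B := by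
  cases t with
  | z => rfl
  | o v =>
    rw [ev_o, if_neg (range_succ_not h)]
    rfl
  | n a b =>
    rw [ev_n, if_neg h]
    rfl

theorem ev_br1 (t : T) {q : ℕ} {B : Finset ℕ} (h : q ∈ B) : ev (br1 t) q B = ev t (q + 1) B := by
  cases t with
  | z => rfl
  | o v =>
    change ev (o v) q B = _
    rw [ev_o, ev_o]
    simp only [range_succ_sub h]
  | n a b =>
    rw [ev_n, if_pos h]
    rfl

theorem wf_mk1 {t : T} {q : ℕ} (h : wf t q = true) : wf (mk1 t) (q + 1) = true := by
  cases t with
  | z => rfl
  | o v => rfl
  | n a b =>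
    change wf (n z (n a b)) (q + 1) = true
    rw [wf_n]
    exact ⟨rfl, h⟩

theorem ev_mk1 (t : T) (q : ℕ) (B : Finset ℕ) :
    ev (mk1 t) (q + 1) B = if q ∈ B then ev t q B else 0 := by
  cases t with
  | z => rw [ev_z, ite_self]; rfl
  | o v =>
    change ev (o v) (q + 1) B = _
    rw [ev_o, ev_o]
    by_cases h : q ∈ B
    · rw [if_pos h]
      simp only [range_succ_sub h]
    · rw [if_neg h, if_neg (range_succ_not h)]
  | n a b => rfl

theorem wf_mk0 {t : T} {q : ℕ} (h : wf t q = true) : wf (mk0 t) (q + 1) = true := by
  cases t with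
  | z => rfl
  | o v =>
    change wf (n (o v) z) (q + 1) = true
    rw [wf_n]
    exact ⟨rfl, rfl⟩
  | n a b =>
    change wf (n (n a b) z) (q + 1) = true
    rw [wf_n]
    exact ⟨h, rfl⟩

theorem ev_mk0 (t : T) (q : ℕ) (B : Finset ℕ) :
    ev (mk0 t) (q + 1) B = if q ∈ B then 0 else ev t q B := by
  cases t with
  | z => rw [ev_z, ite_self]; rfl
  | o v => rfl
  | n a b => rfl

theorem wf_mk {s t : T} {q : ℕ} (hs : wf s q = true) (ht : wf t q = true) :
    wf (mk s t) (q + 1) = true := by
  cases s with
  | z => exact wf_mk1 ht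
  | o v =>
    change wf (n (o v) t) (q + 1) = true
    rw [wf_n]
    exact ⟨hs, ht⟩
  | n a b =>
    change wf (n (n a b) t) (q + 1) = true
    rw [wf_n]
    exact ⟨hs, ht⟩

theorem ev_mk (s t : T) (q : ℕ) (B : Finset ℕ) :
    ev (mk s t) (q + 1) B = if q ∈ B then ev t q B else ev s q B := by
  cases s with
  | z => exact ev_mk1 t q B
  | o v => rfl
  | n a b => rfl

/-! ### adding a box -/

theorem br0_low {t : T} (h : wf t 0 = true) : br0 t = z := by
  cases t with
  | z => rfl
  | o v => rfl
  | n a b => exact absurd h wf_n0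

theorem wf_d : ∀ (t : T) (p : ℕ), wf t p = true → wf (d t) p = true := by
  intro t
  induction t with
  | z => intro p _; rfl
  | o v => intro p _; rfl
  | n a b iha ihb =>
    intro p h
    cases p with
    | zero => exact absurd h wf_n0
    | succ q =>
      rw [wf_n] at h
      change wf (mk (add (d a) (mk1 (br0 b))) (d b)) (q + 1) = true
      refine wf_mk (wf_add _ _ _ (iha q h.1) ?_) (ihb q h.2)
      cases q with
      | zero => rw [br0_low h.2]; rfl
      | succ r => exact wf_mk1 (wf_br0 h.2)

theorem mem_mv {B : Finset ℕ} {x y : ℕ} (h1 : y ≠ x) (h2 : y ≠ x + 1) : y ∈ mv B x ↔ y ∈ B := by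
  unfold mv
  rw [mem_insert, mem_erase]
  constructor
  · rintro (h | h)
    · exact absurd h h2
    · exact h.2
  · intro h
    exact Or.inr ⟨h1, h⟩

theorem notMem_mv (B : Finset ℕ) (x : ℕ) : x ∉ mv B x := by
  unfold mv
  rw [mem_insert, mem_erase]
  rintro (h | h)
  · omega
  · exact h.1 rfl

theorem ev_d : ∀ (t : T) (p : ℕ) (B : Finset ℕ), wf t p = true →
    ev (d t) p B = ∑ x ∈ range (p - 1), if x ∈ B ∧ x + 1 ∉ B then ev t p (mv B x) else 0 := by
  intro t
  induction t with
  | z =>
    intro p B _
    symm
    refine sum_eq_zero fun x _ => ?_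
    rw [ev_z, ite_self]
  | o v =>
    intro p B _
    symm
    refine sum_eq_zero fun x hx => ?_
    have h1 := mem_range.1 hx
    have hn : ¬ range p ⊆ mv B x := fun h => notMem_mv B x (h (mem_range.2 (by omega)))
    rw [ev_o, if_neg hn, ite_self]
  | n a b iha ihb =>
    intro p B h
    cases p with
    | zero => exact absurd h wf_n0
    | succ q =>
      rw [wf_n] at h
      change ev (mk (add (d a) (mk1 (br0 b))) (d b)) (q + 1) B = _
      rw [ev_mk, Nat.add_sub_cancel]
      cases q with
      | zero =>
        rw [range_zero, sum_empty, br0_low h.2]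
        change (if 0 ∈ B then ev (d b) 0 B else ev (add (d a) z) 0 B) = 0
        rw [ev_add _ _ _ _ (wf_d a 0 h.1) rfl, ihb 0 B h.2, iha 0 B h.1, ev_z]
        simp
      | succ r =>
        have hm1 : wf (mk1 (br0 b)) (r + 1) = true := wf_mk1 (wf_br0 h.2)
        rw [ev_add _ _ _ _ (wf_d a (r + 1) h.1) hm1, ev_mk1, ihb (r + 1) B h.2, iha (r + 1) B h.1,
          Nat.add_sub_cancel, sum_range_succ]
        have e1 : ∀ x ∈ range r,
            (if x ∈ B ∧ x + 1 ∉ B then ev (n a b) (r + 1 + 1) (mv B x) else 0) =
              if r + 1 ∈ B then (if x ∈ B ∧ x + 1 ∉ B then ev b (r + 1) (mv B x) else 0)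
              else if x ∈ B ∧ x + 1 ∉ B then ev a (r + 1) (mv B x) else 0 := by
          intro x hx
          have hx' := mem_range.1 hx
          rw [ev_n]
          simp only [mem_mv (B := B) (x := x) (y := r + 1) (by omega) (by omega)]
          split_ifs <;> rfl
        rw [sum_congr rfl e1]
        by_cases hr : r + 1 ∈ B
        · simp only [if_pos hr]
          rw [if_neg (fun hh : r ∈ B ∧ r + 1 ∉ B => hh.2 hr), add_zero]
        · simp only [if_neg hr]
          congr 1
          by_cases hr0 : r ∈ B
          · rw [if_pos hr0, if_pos ⟨hr0, hr⟩, ev_n, if_pos (show r + 1 ∈ mv B r from mem_insert_self _ _),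
              ← ev_br0 b (notMem_mv B r)]
            refine ev_congr _ _ _ _ fun x hx => ?_
            rw [mem_mv (by omega) (by omega)]
          · rw [if_neg hr0, if_neg (fun hh : r ∈ B ∧ r + 1 ∉ B => hr0 hh.1)]

/-! ### removing a box -/

theorem up_n (q : ℕ) (a b : T) : up (q + 1) (n a b) =
    mk (up q a) (add (up q b) (Nat.rec z (fun _ _ => mk0 (br1 a)) q)) := rfl

theorem up_z : ∀ q : ℕ, up q z = z
  | 0 => rfl
  | _ + 1 => rfl

theorem up_o (v : ℕ) : ∀ q : ℕ, up q (o v) = z
  | 0 => rfl
  | _ + 1 => rfl

theorem wf_up : ∀ (q : ℕ) (t : T), wf t q = true → wf (up q t) q = true := by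
  intro q
  induction q with
  | zero => intro t _; rfl
  | succ q ih =>
    intro t h
    cases t with
    | z => rfl
    | o v => rfl
    | n a b =>
      rw [wf_n] at h
      rw [up_n]
      refine wf_mk (ih a h.1) (wf_add _ _ _ (ih b h.2) ?_)
      cases q with
      | zero => rfl
      | succ r => exact wf_mk0 (wf_br1 h.1)

theorem mem_mvd {B : Finset ℕ} {x y : ℕ} (h1 : y ≠ x) (h2 : y ≠ x - 1) : y ∈ mvd B x ↔ y ∈ B := by
  unfold mvd
  rw [mem_insert, mem_erase]
  constructor
  · rintro (h | h)
    · exact absurd h h2
    · exact h.2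
  · intro h
    exact Or.inr ⟨h1, h⟩

theorem notMem_mvd (B : Finset ℕ) (y : ℕ) : y + 1 ∉ mvd B (y + 1) := by
  unfold mvd
  rw [mem_insert, mem_erase]
  rintro (h | h)
  · omega
  · exact h.1 rfl

theorem ev_up : ∀ (p : ℕ) (t : T) (B : Finset ℕ), wf t p = true →
    ev (up p t) p B = ∑ y ∈ range (p - 1), if y + 1 ∈ B ∧ y ∉ B then ev t p (mvd B (y + 1)) else 0 := by
  intro p
  induction p with
  | zero =>
    intro t B _
    rw [Nat.zero_sub, range_zero, sum_empty]
    rfl
  | succ q ih =>
    intro t B h
    rw [Nat.add_sub_cancel]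
    cases t with
    | z =>
      symm
      refine sum_eq_zero fun x _ => ?_
      rw [ev_z, ite_self]
    | o v =>
      symm
      refine sum_eq_zero fun x hx => ?_
      have h1 := mem_range.1 hx
      have hn : ¬ range (q + 1) ⊆ mvd B (x + 1) :=
        fun h => notMem_mvd B x (h (mem_range.2 (by omega)))
      rw [ev_o, if_neg hn, ite_self]
    | n a b =>
      rw [wf_n] at h
      rw [up_n, ev_mk]
      cases q with
      | zero =>
        rw [range_zero, sum_empty]
        change (if 0 ∈ B then ev (add z z) 0 B else 0) = 0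
        split_ifs <;> rfl
      | succ r =>
        change (if r + 1 ∈ B then ev (add (up (r + 1) b) (mk0 (br1 a))) (r + 1) B
          else ev (up (r + 1) a) (r + 1) B) = _
        have hm1 : wf (mk0 (br1 a)) (r + 1) = true := wf_mk0 (wf_br1 h.1)
        rw [ev_add _ _ _ _ (wf_up (r + 1) b h.2) hm1, ev_mk0, ih b B h.2, ih a B h.1,
          Nat.add_sub_cancel, sum_range_succ]
        have e1 : ∀ x ∈ range r,
            (if x + 1 ∈ B ∧ x ∉ B then ev (n a b) (r + 1 + 1) (mvd B (x + 1)) else 0) =
              if r + 1 ∈ B then (if x + 1 ∈ B ∧ x ∉ B then ev b (r + 1) (mvd B (x + 1)) else 0)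
              else if x + 1 ∈ B ∧ x ∉ B then ev a (r + 1) (mvd B (x + 1)) else 0 := by
          intro x hx
          have hx' := mem_range.1 hx
          rw [ev_n]
          simp only [mem_mvd (B := B) (x := x + 1) (y := r + 1) (by omega) (by omega)]
          split_ifs <;> rfl
        rw [sum_congr rfl e1]
        by_cases hr : r + 1 ∈ B
        · simp only [if_pos hr]
          congr 1
          by_cases hr0 : r ∈ B
          · rw [if_pos hr0, if_neg (fun hh : r + 1 ∈ B ∧ r ∉ B => hh.2 hr0)]
          · rw [if_neg hr0, if_pos ⟨hr, hr0⟩, ev_n, if_neg (notMem_mvd B r),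
              ← ev_br1 a (show r ∈ mvd B (r + 1) from mem_insert_self _ _)]
            refine ev_congr _ _ _ _ fun x hx => ?_
            rw [mem_mvd (by omega) (by omega)]
        · simp only [if_neg hr]
          rw [if_neg (fun hh : r + 1 ∈ B ∧ r ∉ B => hr hh.1), add_zero]

/-! ### comparison and fullness -/

theorem eqs_sound (D : ℕ) : ∀ (s t : T), eqs D s t = true → ∀ (p : ℕ) (B : Finset ℕ),
    ev s p B = D * ev t p B := by
  intro s
  induction s with
  | z =>
    intro t h p B
    cases t with
    | z => rw [ev_z, mul_zero]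
    | o v => exact absurd h Bool.false_ne_true
    | n a b => exact absurd h Bool.false_ne_true
  | o v =>
    intro t h p B
    cases t with
    | z => exact absurd h Bool.false_ne_true
    | o w =>
      have h1 : v = D * w := Nat.eq_of_beq_eq_true h
      rw [ev_o, ev_o, h1]
      split_ifs
      · rfl
      · rw [mul_zero]
    | n a b => exact absurd h Bool.false_ne_true
  | n a b iha ihb =>
    intro t h p B
    cases t with
    | z => exact absurd h Bool.false_ne_true
    | o w => exact absurd h Bool.false_ne_true
    | n c e =>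
      have h1 : cond (eqs D a c) (eqs D b e) false = true := h
      have h2 : eqs D a c = true ∧ eqs D b e = true := by
        cases hx : eqs D a c
        · rw [hx] at h1
          exact absurd h1 Bool.false_ne_true
        · rw [hx] at h1
          exact ⟨rfl, h1⟩
      cases p with
      | zero => rw [ev_n0, ev_n0, mul_zero]
      | succ q =>
        rw [ev_n, ev_n, iha c h2.1 q B, ihb e h2.2 q B]
        split_ifs <;> rfl

/-- the largest displacement of `k` beads below `p` -/
theorem sum_le_full : ∀ (p : ℕ) (B : Finset ℕ), B ⊆ range p →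
    ∑ x ∈ B, x ≤ ∑ i ∈ range B.card, i + B.card * (p - B.card) := by
  intro p
  induction p with
  | zero =>
    intro B h
    rw [range_zero, subset_empty] at h
    subst h
    simp
  | succ q ih =>
    intro B h
    have hc : B.card ≤ q + 1 := by
      have := card_le_card h
      rwa [card_range] at this
    by_cases hq : q ∈ B
    · have h1 : B.erase q ⊆ range q := by
        intro x hx
        rw [mem_erase] at hx
        have := mem_range.1 (h hx.2)
        rw [mem_range]
        omega
      have h2 := ih (B.erase q) h1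
      rw [card_erase_of_mem hq] at h2
      have h3 := add_sum_erase B (fun x => x) hq
      have h4 : 0 < B.card := card_pos.2 ⟨q, hq⟩
      obtain ⟨k, hk⟩ : ∃ k, B.card = k + 1 := ⟨B.card - 1, by omega⟩
      rw [hk, Nat.add_sub_cancel] at h2
      rw [hk, sum_range_succ]
      obtain ⟨e, he⟩ : ∃ e, q = k + e := ⟨q - k, by omega⟩
      have e1 : q - k = e := by omega
      have e2 : q + 1 - (k + 1) = e := by omega
      rw [e1] at h2
      rw [e2]
      have h5 : (fun x : ℕ => x) q = q := rfl
      nlinarith
    · have h1 : B ⊆ range q := by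
        intro x hx
        have := mem_range.1 (h hx)
        rw [mem_range]
        have : x ≠ q := fun hh => hq (hh ▸ hx)
        omega
      refine le_trans (ih B h1) ?_
      have : B.card * (q - B.card) ≤ B.card * (q + 1 - B.card) := Nat.mul_le_mul_left _ (by omega)
      omega

theorem no_set {p k r : ℕ}
    (h : cond (Nat.ble k p) (Nat.ble (Nat.succ (Nat.mul k (Nat.sub p k))) r) true = true)
    {B : Finset ℕ} (hB : B ⊆ range p) (hc : B.card = k)
    (hs : ∑ x ∈ B, x = ∑ i ∈ range k, i + r) : False := by
  have h1 : k ≤ p := by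
    rw [← hc]
    have := card_le_card hB
    rwa [card_range] at this
  rw [Nat.ble_eq_true_of_le h1] at h
  have h2 : k * (p - k) + 1 ≤ r := Nat.le_of_ble_eq_true h
  have h3 := sum_le_full p B hB
  rw [hc] at h3
  omega

theorem full_sound : ∀ (t : T) (p k r : ℕ), full t p k r = true → ∀ B : Finset ℕ, B ⊆ range p →
    B.card = k → ∑ x ∈ B, x = ∑ i ∈ range k, i + r → 0 < ev t p B := by
  intro t
  induction t with
  | z =>
    intro p k r h B hB hc hs
    exact (no_set h hB hc hs).elim
  | o v =>
    intro p k r h B hB hc hs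
    have h1 : cond (Nat.beq k p) (Nat.ble 1 v)
      (cond (Nat.ble k p) (Nat.ble (Nat.succ (Nat.mul k (Nat.sub p k))) r) true) = true := h
    cases hkp : Nat.beq k p with
    | false =>
      rw [hkp] at h1
      exact (no_set h1 hB hc hs).elim
    | true =>
      rw [hkp] at h1
      have h2 : k = p := Nat.eq_of_beq_eq_true hkp
      have h3 : 1 ≤ v := Nat.le_of_ble_eq_true h1
      have h4 : range p ⊆ B := by
        have h5 : B = range p := eq_of_subset_of_card_le hB (by rw [card_range, hc, h2])
        rw [h5]
      rw [ev_o, if_pos h4]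
      exact h3
  | n a b iha ihb =>
    intro p k r h B hB hc hs
    cases p with
    | zero => exact absurd h Bool.false_ne_true
    | succ q =>
      have h1 : cond (full a q k r)
        (Nat.rec true (fun k' _ => cond (Nat.ble (Nat.sub q k') r)
          (full b q k' (Nat.sub r (Nat.sub q k'))) true) k : Bool) false = true := h
      have h2 : full a q k r = true ∧ (Nat.rec true (fun k' _ => cond (Nat.ble (Nat.sub q k') r)
          (full b q k' (Nat.sub r (Nat.sub q k'))) true) k : Bool) = true := by
        cases hx : full a q k r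
        · rw [hx] at h1
          exact absurd h1 Bool.false_ne_true
        · rw [hx] at h1
          exact ⟨rfl, h1⟩
      rw [ev_n]
      by_cases hq : q ∈ B
      · rw [if_pos hq]
        cases k with
        | zero =>
          rw [card_eq_zero] at hc
          rw [hc] at hq
          exact absurd hq (notMem_empty q)
        | succ k' =>
          have h3 : cond (Nat.ble (Nat.sub q k') r) (full b q k' (Nat.sub r (Nat.sub q k'))) true
            = true := h2.2
          have h4 : B.erase q ⊆ range q := by
            intro x hx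
            rw [mem_erase] at hx
            have := mem_range.1 (hB hx.2)
            rw [mem_range]
            omega
          have h5 : (B.erase q).card = k' := by
            rw [card_erase_of_mem hq, hc, Nat.add_sub_cancel]
          have h6 := add_sum_erase B (fun x => x) hq
          have h7 := sum_le_full q (B.erase q) h4
          have h8 : k' ≤ q := by
            rw [← h5]
            have := card_le_card h4
            rwa [card_range] at this
          have h9 : ∑ i ∈ range k', i ≤ ∑ x ∈ B.erase q, x := by
            have key : ∀ C : Finset ℕ, ∑ i ∈ range C.card, i ≤ ∑ i ∈ C, i := by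
              intro C
              induction C using Finset.induction_on_max with
              | empty => simp
              | insert a C ha ih =>
                have hn : a ∉ C := fun h => lt_irrefl a (ha a h)
                rw [card_insert_of_notMem hn, sum_range_succ, sum_insert hn]
                have hle : C.card ≤ a := by
                  have : C ⊆ range a := fun y hy => mem_range.2 (ha y hy)
                  have := card_le_card this
                  rwa [card_range] at this
                omega
            have := key (B.erase q)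
            rwa [h5] at this
          rw [sum_range_succ] at hs
          have h10 : q - k' ≤ r := by
            have : (fun x : ℕ => x) q = q := rfl
            omega
          have h11 : Nat.ble (Nat.sub q k') r = true := Nat.ble_eq_true_of_le h10
          rw [h11] at h3
          have h12 := ihb q k' (r - (q - k')) h3 (B.erase q) h4 h5 (by
            have : (fun x : ℕ => x) q = q := rfl
            omega)
          rwa [ev_congr b q (B.erase q) B (fun x hx => by
            rw [mem_erase]
            exact ⟨fun h => h.2, fun h => ⟨by omega, h⟩⟩)] at h12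
      · rw [if_neg hq]
        refine iha q k r h2.1 B ?_ hc hs
        intro x hx
        have := mem_range.1 (hB hx)
        rw [mem_range]
        have : x ≠ q := fun hh => hq (hh ▸ hx)
        omega

/-! ### the numbers of standard tableaux -/

theorem ev_t0 : ∀ (j K : ℕ) (B : Finset ℕ), B = range K → ev (t0 j) (K + j) B = 1 := by
  intro j
  induction j with
  | zero =>
    intro K B h
    change ev (o 1) K B = 1
    rw [ev_o, h, if_pos (subset_refl _)]
  | succ j ih =>
    intro K B h
    change ev (n (t0 j) z) (K + j + 1) B = 1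
    rw [ev_n, if_neg, ih K B h]
    rw [h, mem_range]
    omega

theorem wf_t0 : ∀ (j p : ℕ), wf (t0 j) (p + j) = true := by
  intro j
  induction j with
  | zero => intro p; rfl
  | succ j ih =>
    intro p
    change wf (n (t0 j) z) (p + j + 1) = true
    rw [wf_n]
    exact ⟨ih p, rfl⟩

theorem wf_ui (p : ℕ) (t : T) (h : wf t p = true) : ∀ k : ℕ, wf (ui p k t) p = true
  | 0 => h
  | k + 1 => wf_up p _ (wf_ui p t h k)

theorem wf_di (p : ℕ) (t : T) (h : wf t p = true) : ∀ k : ℕ, wf (di k t) p = true
  | 0 => h
  | k + 1 => wf_d _ p (wf_di p t h k)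

theorem mvd_sub {P : ℕ} {B : Finset ℕ} (hB : B ⊆ range P) {x : ℕ} (hx : x ∈ B) :
    mvd B x ⊆ range P := by
  intro y hy
  unfold mvd at hy
  rw [mem_insert, mem_erase] at hy
  rcases hy with h | h
  · have := mem_range.1 (hB hx)
    rw [mem_range]
    omega
  · exact hB h.2

theorem ev_up_rm {p : ℕ} {t : T} {B : Finset ℕ} (h : wf t p = true) (hB : B ⊆ range p) :
    ev (up p t) p B = ∑ x ∈ rm B, ev t p (mvd B x) := by
  rw [ev_up p t B h, ← sum_filter]
  refine sum_nbij (fun y => y + 1) ?_ ?_ ?_ ?_
  · intro y hy
    rw [mem_filter] at hy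
    exact mem_rm.2 ⟨hy.2.1, by omega, by rw [Nat.add_sub_cancel]; exact hy.2.2⟩
  · intro y _ y' _ hyy
    exact Nat.succ_injective hyy
  · intro x hx
    obtain ⟨h1, h2, h3⟩ := mem_rm.1 (mem_coe.1 hx)
    refine ⟨x - 1, ?_, by change x - 1 + 1 = x; omega⟩
    rw [mem_coe, mem_filter]
    have h4 := mem_range.1 (hB h1)
    exact ⟨mem_range.2 (by omega), by rw [Nat.sub_add_cancel h2]; exact h1, h3⟩
  · intro y _
    rfl

/-- the numbers of standard tableaux -/
theorem ev_ui {m K : ℕ} (hK : 0 < K) (hm : 1 ≤ m) : ∀ (k : ℕ) (B : Finset ℕ), B ∈ Lv K k →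
    B ⊆ range (K - 1 + m) → (k.factorial : ℝ) * ex B =
      ev (ui (K - 1 + m) k (t0 (m - 1))) (K - 1 + m) B * ex (range K) := by
  have hP : K - 1 + m = K + (m - 1) := by omega
  have hw : wf (t0 (m - 1)) (K - 1 + m) = true := by
    rw [hP]
    exact wf_t0 (m - 1) K
  intro k
  induction k with
  | zero =>
    intro B hB _
    simp only [Lv, mem_singleton] at hB
    change _ = (ev (t0 (m - 1)) (K - 1 + m) B : ℝ) * _
    rw [hP, ev_t0 (m - 1) K B hB, hB]
    simp
  | succ k ih =>
    intro B hB hP'
    have h1 := sum_rm_ex hB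
    change _ = (ev (up (K - 1 + m) (ui (K - 1 + m) k (t0 (m - 1)))) (K - 1 + m) B : ℝ) * _
    rw [ev_up_rm (wf_ui _ _ hw k) hP', Nat.factorial_succ]
    push_cast at h1 ⊢
    rw [sum_mul, mul_comm ((k : ℝ) + 1), mul_assoc, ← h1, mul_sum]
    refine sum_congr rfl fun x hx => ?_
    exact ih (mvd B x) (mvd_mem hB hx) (mvd_sub hP' (mem_rm.1 hx).1)

/-! ### the restriction operator -/

theorem w_pos' {B : Finset ℕ} {x : ℕ} (hx : x ∈ ad B) : 0 < w B x := by
  have h1 := ex_mv hx
  have h2 := ex_pos (mv B x)
  rw [h1] at h2
  exact (pos_iff_pos_of_mul_pos h2).2 (ex_pos B)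

/-- the function of a trie, divided by `ex` -/
noncomputable def V (p : ℕ) (t : T) (B : Finset ℕ) : ℝ := (ev t p B : ℝ) / ex B

theorem Dw_V (wl : ℕ) (t : T) (h : wf t (wl + 1) = true) :
    Dw wl (V (wl + 1) t) = V (wl + 1) (d t) := by
  funext B
  unfold Dw V
  rw [ev_d t (wl + 1) B h, Nat.add_sub_cancel, ← sum_filter]
  have e : (ad B).filter (fun x => x < wl) =
      (range wl).filter (fun x => x ∈ B ∧ x + 1 ∉ B) := by
    ext x
    rw [mem_filter, mem_filter, mem_ad, mem_range]
    exact and_comm
  rw [← e]
  push_cast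
  rw [sum_div]
  refine sum_congr rfl fun x hx => ?_
  have hx' := (mem_filter.1 hx).1
  rw [ex_mv hx']
  have h1 := (w_pos' hx').ne'
  have h2 := (ex_pos B).ne'
  field_simp

theorem Dwi_V (wl : ℕ) (t : T) (h : wf t (wl + 1) = true) : ∀ j : ℕ,
    Dwi wl j (V (wl + 1) t) = V (wl + 1) (di j t)
  | 0 => rfl
  | j + 1 => by
    change Dw wl (Dwi wl j (V (wl + 1) t)) = V (wl + 1) (d (di j t))
    rw [Dwi_V wl t h j, Dw_V wl _ (wf_di _ _ h j)]

theorem rel_of {wl j : ℕ} {S R : T} (hw : wf S (wl + 1) = true) (he : eqs 1 (di j S) R = true) :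
    Dwi wl j (V (wl + 1) S) = V (wl + 1) R := by
  rw [Dwi_V wl S hw j]
  funext B
  unfold V
  rw [eqs_sound 1 _ _ he (wl + 1) B, one_mul]

theorem rel_trans {wl i j : ℕ} {S R Q : T} (h1 : Dwi wl i (V (wl + 1) S) = V (wl + 1) R)
    (h2 : Dwi wl j (V (wl + 1) R) = V (wl + 1) Q) :
    Dwi wl (j + i) (V (wl + 1) S) = V (wl + 1) Q := by
  rw [← Dwi_comp, h1, h2]

/-- **The certificate at the threshold** in two steps: the top trie `S`, the trie `R` on the level `m`. -/
theorem threshold_of_chain {m D : ℕ} {S R : T} (hm : 4 ≤ m) (hD : 0 < D)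
    (hf : full S (3 * m - 4 + 1) (2 * m - 2) (2 * m - 3) = true)
    (hr : Dwi (3 * m - 4) (m - 3) (V (3 * m - 4 + 1) S) = V (3 * m - 4 + 1) R)
    (he : eqs D R (ui (3 * m - 4 + 1) m (t0 (m - 1))) = true) : Threshold m := by
  have hwl : 2 * m - 2 - 1 + m = 3 * m - 4 + 1 := by omega
  have hwl' : 2 * m - 2 + m - 2 = 3 * m - 4 := by omega
  have hc : 0 < ex (range (2 * m - 2)) := ex_pos _
  have hD' : (0 : ℝ) < D := by exact_mod_cast hD
  have hm' : (0 : ℝ) < m.factorial := by exact_mod_cast m.factorial_pos
  refine ⟨2 * m - 2, fun B => (ex (range (2 * m - 2)) / (D * m.factorial)) *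
    V (3 * m - 4 + 1) S B, by omega, ?_, ?_⟩
  · intro B hB hb
    have hB' : B ⊆ range (2 * m - 2 - 1 + m) := fun x hx => mem_range.2 (hb x hx)
    rw [hwl', Dwi_smul, hr]
    change ex (range (2 * m - 2)) / (D * m.factorial) *
      ((ev R (3 * m - 4 + 1) B : ℝ) / ex B) = 1
    rw [eqs_sound D _ _ he (3 * m - 4 + 1) B]
    have h1 := ev_ui (K := 2 * m - 2) (m := m) (by omega) (by omega) m B hB hB'
    rw [hwl] at h1
    have h2 := (ex_pos B).ne'
    push_cast
    have h3 : (ev (ui (3 * m - 4 + 1) m (t0 (m - 1))) (3 * m - 4 + 1) B : ℝ) =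
        m.factorial * ex B / ex (range (2 * m - 2)) := by
      rw [h1]
      field_simp
    rw [h3]
    field_simp
  · intro B hB hb
    have hB' : B ⊆ range (3 * m - 4 + 1) := fun x hx => mem_range.2 (by
      have := hb x hx
      omega)
    obtain ⟨h1, -, -, h4⟩ := Lv_spec hB
    have h5 := full_sound S (3 * m - 4 + 1) (2 * m - 2) (2 * m - 3) hf B hB' h1
      (by rw [h4]; omega)
    have h6 : (0 : ℝ) < ev S (3 * m - 4 + 1) B := by exact_mod_cast h5
    exact mul_pos (div_pos hc (mul_pos hD' hm')) (div_pos h6 (ex_pos B))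

/-- **The certificate at the threshold** in one step. -/
theorem threshold_of_cert {m D : ℕ} {S : T} (hm : 4 ≤ m) (hD : 0 < D)
    (hw : wf S (3 * m - 4 + 1) = true)
    (hf : full S (3 * m - 4 + 1) (2 * m - 2) (2 * m - 3) = true)
    (he : eqs D (di (m - 3) S) (ui (3 * m - 4 + 1) m (t0 (m - 1))) = true) : Threshold m :=
  threshold_of_chain hm hD hf (Dwi_V (3 * m - 4) S hw (m - 3)) he

end Pool.JM.Cert
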