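import Pool.Agent.Work.MP_46fa68_h48.Cert

/-!
# MP_46fa68_co: certificates packed in one number

A function on the partitions of `r` with parts at most `c` is one number `x` in base `W`: first the
values at the partitions with parts at most `c - 1`, then the values at the partitions with a part `c`.
`dq` is the operator adding a box; it adds whole blocks at once.
-/

set_option autoImplicit false

open Finset

namespace Pool.JM.Pack

open Pool.JM.Cert (T ev)

/-! ### functions for the kernel -/

/-- `f v`; the kernel evaluates `v` first -/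
noncomputable def fc (v : ℕ) (f : ℕ → ℕ) : ℕ := Nat.rec 0 (fun n _ => f n) (Nat.succ v)

/-- `f v`; the kernel evaluates `v` first -/
noncomputable def fb (v : ℕ) (f : ℕ → Bool) : Bool := Nat.rec false (fun n _ => f n) (Nat.succ v)

/-- auxiliary function for `cnt` -/
noncomputable def gn (ih : ℕ → ℕ) (c : ℕ) : ℕ → ℕ → ℕ :=
  Nat.rec (fun r => ih r) (fun _ g r => cond (Nat.ble c r) (Nat.add (ih r) (fc (Nat.sub r c) g)) (ih r))

/-- number of partitions of `r` with parts at most `c` -/
noncomputable def cnt : ℕ → ℕ → ℕ :=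
  Nat.rec (fun r => Nat.rec 1 (fun _ _ => 0) r) (fun c ih r => gn ih (Nat.succ c) r r)

/-- size of a block -/
noncomputable def pw (W c r : ℕ) : ℕ := Nat.pow W (cnt c r)

/-- minimum -/
noncomputable def mn (a b : ℕ) : ℕ := cond (Nat.ble a b) a b

/-- combination of the blocks -/
noncomputable def cmb (A C B L O P : ℕ) : ℕ :=
  Nat.add (Nat.add A (Nat.mul (Nat.mod C L) O)) (Nat.mul B P)

/-- one node of `dq` -/
noncomputable def nd (W : ℕ) (ih : ℕ → ℕ → ℕ → ℕ) (c c1 c2 r r1 s x : ℕ) : ℕ :=
  fc (pw W c1 r) (fun M => fc (Nat.div x M) (fun C =>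
    cmb (fc (Nat.mod x M) (ih c1 r)) C (Nat.rec 0 (fun _ _ => fc (mn c s) (fun cs => ih cs s C)) s)
      (pw W c1 s) (pw W c2 r1) (pw W c1 r1)))

/-- the operator adding a box, on packed functions on the partitions of `r` with parts at most `c` -/
noncomputable def dq (W : ℕ) : ℕ → ℕ → ℕ → ℕ → ℕ :=
  Nat.rec (fun _ _ x => x)
    (fun _ ih c r x => Nat.rec x (fun c1 _ => Nat.rec x (fun c2 _ => Nat.rec x (fun r1 _ =>
      fc (Nat.sub r c) (fun s => nd W ih c c1 c2 r r1 s x)) r) c1) c)

/-- all digits are between `lo` and `hi` -/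
noncomputable def okq (W lo hi : ℕ) : ℕ → ℕ → ℕ → ℕ → Bool :=
  Nat.rec (fun _ _ _ => false)
    (fun _ ih c r x => Nat.rec (cond (Nat.ble lo x) (Nat.ble x hi) false)
      (fun c1 _ => Nat.rec (cond (Nat.ble lo x) (Nat.ble x hi) false)
        (fun _ _ => fb (Nat.sub r c) (fun s => fb (pw W c1 r) (fun M =>
          cond (fb (Nat.mod x M) (ih c1 r))
            (fb (mn c s) (fun cs => fb (Nat.div x M) (ih cs s))) false))) c1) c)

/-- comparison of a packed function with `D` times a trie -/
noncomputable def chk (W D : ℕ) : T → ℕ → ℕ → ℕ → ℕ → Bool :=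
  T.rec (fun _ _ _ x => Nat.beq x 0)
    (fun v _ c r x => Nat.rec (Nat.rec (Nat.beq x (Nat.mul D v)) (fun _ _ => false) r)
      (fun _ _ => false) c)
    (fun _ b ra rb p c r x => Nat.rec false (fun q _ => Nat.rec false (fun c' _ =>
      fb (pw W c' r) (fun M => cond (fb (Nat.mod x M) (ra q c' r))
        (cond (Nat.ble c r) (fb (Nat.sub r c) (fun s => fb (Nat.div x M) (rb q c s)))
          (T.rec true (fun _ => false) (fun _ _ _ _ => false) b)) false)) c) p)

/-- all levels: digits in `[1, hi]`, then the operator, at the end the comparison -/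
noncomputable def run (W hi fu c D P : ℕ) (F : T) : ℕ → ℕ → ℕ → Bool :=
  Nat.rec (fun r x => chk W D F P c r x)
    (fun _ ih r x => cond (okq W 1 hi fu c r x)
      (Nat.rec false (fun r1 _ => fb (dq W fu c r x) (ih r1)) r) false)

/-- the number with the chunks `l` in base `b` -/
noncomputable def asm (b : ℕ) : List ℕ → ℕ :=
  List.rec 0 (fun a _ ih => Nat.add a (Nat.mul b ih))

/-! ### the numbers of partitions -/

theorem fc_eq (v : ℕ) (f : ℕ → ℕ) : fc v f = f v := rfl

theorem fb_eq (v : ℕ) (f : ℕ → Bool) : fb v f = f v := rfl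

theorem mn_eq (a b : ℕ) : mn a b = min a b := by
  unfold mn
  cases h : Nat.ble a b
  · have : ¬ a ≤ b := fun h' => by
      rw [Nat.ble_eq_true_of_le h'] at h
      exact absurd h (by decide)
    rw [min_eq_right (by omega)]
    rfl
  · rw [min_eq_left (Nat.le_of_ble_eq_true h)]
    rfl

theorem gn_succ (ih : ℕ → ℕ) (c f r : ℕ) : gn ih c (f + 1) r =
    if c ≤ r then ih r + gn ih c f (r - c) else ih r := by
  change cond (Nat.ble c r) (Nat.add (ih r) (gn ih c f (r - c))) (ih r) = _
  cases h : Nat.ble c r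
  · have : ¬ c ≤ r := fun h' => by
      rw [Nat.ble_eq_true_of_le h'] at h
      exact absurd h (by decide)
    rw [if_neg this]
    rfl
  · rw [if_pos (Nat.le_of_ble_eq_true h)]
    rfl

theorem gn_zero (ih : ℕ → ℕ) (c r : ℕ) : gn ih c 0 r = ih r := rfl

theorem gn_fuel (ih : ℕ → ℕ) {c : ℕ} (hc : 0 < c) : ∀ (f g r : ℕ), r ≤ f → r ≤ g →
    gn ih c f r = gn ih c g r := by
  intro f
  induction f with
  | zero =>
    intro g r h1 _
    obtain rfl : r = 0 := by omega
    cases g with
    | zero => rfl
    | succ g => rw [gn_succ, if_neg (by omega)]; rfl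
  | succ f ihf =>
    intro g r h1 h2
    cases g with
    | zero =>
      obtain rfl : r = 0 := by omega
      rw [gn_succ, if_neg (by omega)]; rfl
    | succ g =>
      rw [gn_succ, gn_succ]
      split_ifs with h
      · rw [ihf g (r - c) (by omega) (by omega)]
      · rfl

theorem cnt_zero_zero : cnt 0 0 = 1 := rfl

theorem cnt_zero_succ (r : ℕ) : cnt 0 (r + 1) = 0 := rfl

theorem cnt_succ (c r : ℕ) : cnt (c + 1) r =
    cnt c r + if c + 1 ≤ r then cnt (c + 1) (r - (c + 1)) else 0 := by
  change gn (cnt c) (c + 1) r r = _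
  cases r with
  | zero => rw [if_neg (by omega)]; rfl
  | succ r =>
    rw [gn_succ]
    split_ifs with h
    · change _ = cnt c (r + 1) + gn (cnt c) (c + 1) (r + 1 - (c + 1)) (r + 1 - (c + 1))
      rw [gn_fuel (cnt c) (by omega) r (r + 1 - (c + 1)) (r + 1 - (c + 1)) (by omega) le_rfl]
    · rfl

theorem cnt_succ_le {c r : ℕ} (h : c + 1 ≤ r) :
    cnt (c + 1) r = cnt c r + cnt (c + 1) (r - (c + 1)) := by
  rw [cnt_succ, if_pos h]

theorem cnt_succ_lt {c r : ℕ} (h : ¬ c + 1 ≤ r) : cnt (c + 1) r = cnt c r := by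
  rw [cnt_succ, if_neg h, add_zero]

theorem cnt_one : ∀ r : ℕ, cnt 1 r = 1 := by
  intro r
  induction r with
  | zero => rfl
  | succ r ih =>
    rw [cnt_succ_le (by omega), cnt_zero_succ, zero_add, zero_add, Nat.add_sub_cancel]
    exact ih

theorem cnt_min (r : ℕ) : ∀ c : ℕ, cnt (min c r) r = cnt c r := by
  intro c
  induction c with
  | zero => rw [Nat.zero_min]
  | succ c ih =>
    rcases Nat.lt_or_ge r (c + 1) with h | h
    · rw [min_eq_right (by omega), cnt_succ_lt (by omega), ← ih, min_eq_right (by omega)]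
    · rw [min_eq_left h]

/-! ### packing -/

/-- the packed function `g` on the sets of beads below `p` with `c` empty places and displacement `r` -/
noncomputable def pk (W : ℕ) : ℕ → ℕ → ℕ → (Finset ℕ → ℕ) → ℕ
  | 0, c, r, g => if c = 0 ∧ r = 0 then g ∅ else 0
  | p + 1, 0, r, g => pk W p 0 r (fun C => g (insert p C))
  | p + 1, c + 1, r, g => pk W p c r g +
      if c + 1 ≤ r then W ^ cnt c r * pk W p (c + 1) (r - (c + 1)) (fun C => g (insert p C)) else 0

/-- the value at a set of beads -/
noncomputable def eQ (W : ℕ) : ℕ → ℕ → ℕ → ℕ → Finset ℕ → ℕ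
  | 0, c, r, x, _ => if c = 0 ∧ r = 0 then x else 0
  | p + 1, 0, r, x, B => if p ∈ B then eQ W p 0 r x B else 0
  | p + 1, c + 1, r, x, B => if p ∈ B then
      (if c + 1 ≤ r then eQ W p (c + 1) (r - (c + 1)) (x / W ^ cnt c r) B else 0)
      else eQ W p c r (x % W ^ cnt c r) B

theorem pk_congr {W : ℕ} : ∀ (p c r : ℕ) (g h : Finset ℕ → ℕ),
    (∀ C, C ⊆ range p → g C = h C) → pk W p c r g = pk W p c r h := by
  intro p
  induction p with
  | zero =>
    intro c r g h hgh
    unfold pk
    rw [hgh ∅ (empty_subset _)]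
  | succ p ih =>
    intro c r g h hgh
    have h1 : ∀ C, C ⊆ range p → g (insert p C) = h (insert p C) := by
      intro C hC
      refine hgh _ ?_
      intro x hx
      rw [mem_insert] at hx
      rw [mem_range]
      rcases hx with rfl | hx
      · omega
      · have := mem_range.1 (hC hx)
        omega
    have h2 : ∀ C, C ⊆ range p → g C = h C := by
      intro C hC
      refine hgh _ fun x hx => ?_
      have := mem_range.1 (hC hx)
      rw [mem_range]
      omega
    cases c with
    | zero =>
      unfold pk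
      exact ih _ _ _ _ h1
    | succ c =>
      unfold pk
      rw [ih c r g h h2, ih (c + 1) (r - (c + 1)) _ _ h1]

theorem pk_add {W : ℕ} : ∀ (p c r : ℕ) (g h : Finset ℕ → ℕ),
    pk W p c r (fun C => g C + h C) = pk W p c r g + pk W p c r h := by
  intro p
  induction p with
  | zero =>
    intro c r g h
    unfold pk
    split_ifs
    · rfl
    · rfl
  | succ p ih =>
    intro c r g h
    cases c with
    | zero =>
      unfold pk
      exact ih 0 r (fun C => g (insert p C)) (fun C => h (insert p C))
    | succ c =>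
      unfold pk
      rw [ih c r g h, ih (c + 1) (r - (c + 1)) (fun C => g (insert p C)) (fun C => h (insert p C))]
      split_ifs
      · ring
      · ring

theorem pk_zero {W : ℕ} : ∀ (p c r : ℕ), pk W p c r (fun _ => 0) = 0 := by
  intro p
  induction p with
  | zero => intro c r; unfold pk; rw [ite_self]
  | succ p ih =>
    intro c r
    cases c with
    | zero => unfold pk; exact ih 0 r
    | succ c => unfold pk; rw [ih c r, ih (c + 1) (r - (c + 1)), mul_zero, ite_self, add_zero]

theorem pk_lt {W : ℕ} : ∀ (p c r : ℕ) (g : Finset ℕ → ℕ), (∀ C, g C < W) →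
    pk W p c r g < W ^ cnt c r := by
  intro p
  induction p with
  | zero =>
    intro c r g hg
    have hW : 0 < W := lt_of_le_of_lt (Nat.zero_le _) (hg ∅)
    unfold pk
    split_ifs with h
    · rw [h.1, h.2, cnt_zero_zero, pow_one]
      exact hg ∅
    · exact pow_pos hW _
  | succ p ih =>
    intro c r g hg
    have hW : 0 < W := lt_of_le_of_lt (Nat.zero_le _) (hg ∅)
    cases c with
    | zero =>
      unfold pk
      exact ih 0 r _ fun C => hg _
    | succ c =>
      unfold pk
      have h1 := ih c r g hg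
      split_ifs with h
      · have h2 := ih (c + 1) (r - (c + 1)) (fun C => g (insert p C)) fun C => hg _
        rw [cnt_succ_le h, pow_add]
        calc pk W p c r g + W ^ cnt c r * pk W p (c + 1) (r - (c + 1)) (fun C => g (insert p C))
            < W ^ cnt c r + W ^ cnt c r * pk W p (c + 1) (r - (c + 1)) (fun C => g (insert p C)) := by
              omega
          _ = W ^ cnt c r * (pk W p (c + 1) (r - (c + 1)) (fun C => g (insert p C)) + 1) := by ring
          _ ≤ W ^ cnt c r * W ^ cnt (c + 1) (r - (c + 1)) := Nat.mul_le_mul_left _ h2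
      · rw [cnt_succ_lt h, add_zero]
        exact h1

theorem eQ_congr {W : ℕ} : ∀ (p c r x : ℕ) (B C : Finset ℕ), (∀ y < p, (y ∈ B ↔ y ∈ C)) →
    eQ W p c r x B = eQ W p c r x C := by
  intro p
  induction p with
  | zero => intro c r x B C _; rfl
  | succ p ih =>
    intro c r x B C h
    have h1 := h p (Nat.lt_succ_self p)
    have h2 : ∀ y < p, (y ∈ B ↔ y ∈ C) := fun y hy => h y (by omega)
    cases c with
    | zero =>
      unfold eQ
      rw [ih 0 r x B C h2]
      simp only [h1]
    | succ c =>
      unfold eQ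
      rw [ih (c + 1) _ _ B C h2, ih c r _ B C h2]
      simp only [h1]

theorem eQ_le {W : ℕ} : ∀ (p c r x : ℕ) (B : Finset ℕ), eQ W p c r x B ≤ x := by
  intro p
  induction p with
  | zero =>
    intro c r x B
    unfold eQ
    split_ifs
    · exact le_rfl
    · exact Nat.zero_le _
  | succ p ih =>
    intro c r x B
    cases c with
    | zero =>
      unfold eQ
      split_ifs
      · exact ih _ _ _ _
      · exact Nat.zero_le _
    | succ c =>
      unfold eQ
      split_ifs
      · exact (ih _ _ _ _).trans (Nat.div_le_self _ _)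
      · exact Nat.zero_le _
      · exact (ih _ _ _ _).trans (Nat.mod_le _ _)

theorem eQ_zero {W : ℕ} (p c r : ℕ) (B : Finset ℕ) : eQ W p c r 0 B = 0 :=
  Nat.le_zero.1 (eQ_le p c r 0 B)

/-- `x` is the packed function of its values, if there are enough rows -/
theorem pk_eQ {W : ℕ} (hW : 0 < W) : ∀ (p c r x : ℕ), c + r ≤ p → x < W ^ cnt c r →
    pk W p c r (eQ W p c r x) = x := by
  intro p
  induction p with
  | zero =>
    intro c r x h _
    unfold pk
    rw [if_pos ⟨by omega, by omega⟩]
    unfold eQ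
    rw [if_pos ⟨by omega, by omega⟩]
  | succ p ih =>
    intro c r x h hx
    cases c with
    | zero =>
      unfold pk
      rcases Nat.eq_zero_or_pos r with hr | hr
      · subst hr
        rw [pk_congr p 0 0 (fun C => eQ W (p + 1) 0 0 x (insert p C)) (eQ W p 0 0 x)]
        · exact ih 0 0 x (by omega) hx
        · intro C hC
          have hp : p ∉ C := fun hh => by
            have := mem_range.1 (hC hh)
            omega
          change (if p ∈ insert p C then eQ W p 0 0 x (insert p C) else 0) = _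
          rw [if_pos (mem_insert_self _ _)]
          refine eQ_congr _ _ _ _ _ _ fun y hy => ?_
          rw [mem_insert]
          constructor
          · rintro (h | h)
            · omega
            · exact h
          · exact Or.inr
      · obtain ⟨r', rfl⟩ : ∃ r', r = r' + 1 := ⟨r - 1, by omega⟩
        rw [cnt_zero_succ, pow_zero] at hx
        obtain rfl : x = 0 := by omega
        rw [pk_congr p 0 (r' + 1) _ (fun _ => 0) fun C _ => eQ_zero _ _ _ _]
        exact pk_zero _ _ _
    | succ c =>
      unfold pk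
      have hM : 0 < W ^ cnt c r := pow_pos hW _
      have e1 : pk W p c r (eQ W (p + 1) (c + 1) r x) = x % W ^ cnt c r := by
        rw [pk_congr p c r _ (eQ W p c r (x % W ^ cnt c r))]
        · exact ih c r _ (by omega) (Nat.mod_lt _ hM)
        · intro C hC
          have hp : p ∉ C := fun hh => by
            have := mem_range.1 (hC hh)
            omega
          conv_lhs => unfold eQ
          rw [if_neg hp]
      rw [e1]
      split_ifs with h1
      · have e2 : pk W p (c + 1) (r - (c + 1)) (fun C => eQ W (p + 1) (c + 1) r x (insert p C)) =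
            x / W ^ cnt c r := by
          rw [pk_congr p (c + 1) (r - (c + 1)) _
            (eQ W p (c + 1) (r - (c + 1)) (x / W ^ cnt c r))]
          · refine ih (c + 1) (r - (c + 1)) _ (by omega) ?_
            rw [cnt_succ_le h1, pow_add] at hx
            exact Nat.div_lt_of_lt_mul hx
          · intro C hC
            conv_lhs => unfold eQ
            rw [if_pos (mem_insert_self _ _), if_pos h1]
            refine eQ_congr _ _ _ _ _ _ fun y hy => ?_
            rw [mem_insert]
            constructor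
            · rintro (h | h)
              · omega
              · exact h
            · exact Or.inr
        rw [e2]
        exact Nat.mod_add_div _ _
      · rw [add_zero]
        rw [cnt_succ_lt h1] at hx
        exact Nat.mod_eq_of_lt hx

/-! ### valid sets -/

/-- sets of beads below `p` with `c` empty places and displacement `r` -/
def Vd (p c r : ℕ) (B : Finset ℕ) : Prop :=
  B ⊆ range p ∧ B.card + c = p ∧ ∑ i ∈ B, i = ∑ i ∈ range B.card, i + r

theorem sum_range_le (C : Finset ℕ) : ∑ i ∈ range C.card, i ≤ ∑ i ∈ C, i := by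
  induction C using Finset.induction_on_max with
  | empty => simp
  | insert a C ha ih =>
    have hn : a ∉ C := fun h => lt_irrefl a (ha a h)
    rw [card_insert_of_notMem hn, sum_range_succ, sum_insert hn]
    have hle : C.card ≤ a := by
      have : C ⊆ range a := fun y hy => mem_range.2 (ha y hy)
      have := card_le_card this
      rwa [card_range] at this
    omega

theorem Vd_out {p c r : ℕ} {B : Finset ℕ} (h : Vd (p + 1) (c + 1) r B) (hp : p ∉ B) :
    Vd p c r B := by
  obtain ⟨h1, h2, h3⟩ := h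
  refine ⟨fun x hx => ?_, by omega, h3⟩
  have h4 := mem_range.1 (h1 hx)
  have h5 : x ≠ p := fun h => hp (h ▸ hx)
  exact mem_range.2 (by omega)

theorem Vd_in {p c r : ℕ} {B : Finset ℕ} (h : Vd (p + 1) c r B) (hp : p ∈ B) :
    c ≤ r ∧ Vd p c (r - c) (B.erase p) := by
  obtain ⟨h1, h2, h3⟩ := h
  have h4 : (B.erase p).card = B.card - 1 := card_erase_of_mem hp
  have h5 : 0 < B.card := card_pos.2 ⟨p, hp⟩
  have h6 := add_sum_erase B (fun i => i) hp
  obtain ⟨k, hk⟩ : ∃ k, B.card = k + 1 := ⟨B.card - 1, by omega⟩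
  have h7 : (B.erase p).card = k := by omega
  have h8 := sum_range_le (B.erase p)
  rw [hk, sum_range_succ] at h3
  rw [h7] at h8
  refine ⟨by omega, ?_, by omega, ?_⟩
  · intro x hx
    rw [mem_erase] at hx
    have := mem_range.1 (h1 hx.2)
    exact mem_range.2 (by omega)
  · rw [h7]
    omega

theorem Vd_full {p r : ℕ} {B : Finset ℕ} (h : Vd (p + 1) 0 r B) : p ∈ B := by
  obtain ⟨h1, h2, h3⟩ := h
  have h4 : B = range (p + 1) := eq_of_subset_of_card_le h1 (by rw [card_range]; omega)
  rw [h4, mem_range]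
  omega

theorem Vd_zero {c r : ℕ} {B : Finset ℕ} (h : Vd 0 c r B) : c = 0 ∧ r = 0 ∧ B = ∅ := by
  obtain ⟨h1, h2, h3⟩ := h
  rw [range_zero, subset_empty] at h1
  subst h1
  rw [card_empty] at h2 h3
  simp at h3
  exact ⟨by omega, h3.symm ▸ rfl, rfl⟩

theorem eQ_erase {W p c r x : ℕ} {B : Finset ℕ} : eQ W p c r x (B.erase p) = eQ W p c r x B := by
  refine eQ_congr _ _ _ _ _ _ fun y hy => ?_
  rw [mem_erase]
  exact ⟨fun h => h.2, fun h => ⟨by omega, h⟩⟩

/-- the value of a packed function -/
theorem eQ_pk {W : ℕ} : ∀ (p c r : ℕ) (g : Finset ℕ → ℕ) (B : Finset ℕ), (∀ C, g C < W) →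
    Vd p c r B → eQ W p c r (pk W p c r g) B = g B := by
  intro p
  induction p with
  | zero =>
    intro c r g B _ h
    obtain ⟨rfl, rfl, rfl⟩ := Vd_zero h
    unfold eQ
    rw [if_pos ⟨rfl, rfl⟩]
    unfold pk
    rw [if_pos ⟨rfl, rfl⟩]
  | succ p ih =>
    intro c r g B hg h
    cases c with
    | zero =>
      have hp := Vd_full h
      have h1 := (Vd_in h hp).2
      rw [Nat.sub_zero] at h1
      unfold eQ
      rw [if_pos hp]
      unfold pk
      rw [← eQ_erase, ih 0 r (fun C => g (insert p C)) (B.erase p) (fun C => hg _) h1,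
        insert_erase hp]
    | succ c =>
      have hl := pk_lt p c r g hg
      unfold eQ
      conv_lhs => unfold pk
      by_cases hp : p ∈ B
      · obtain ⟨h1, h2⟩ := Vd_in h hp
        rw [if_pos hp, if_pos h1, if_pos h1, Nat.add_mul_div_left _ _ (by omega),
          Nat.div_eq_of_lt hl, zero_add, ← eQ_erase,
          ih (c + 1) (r - (c + 1)) (fun C => g (insert p C)) (B.erase p) (fun C => hg _) h2,
          insert_erase hp]
      · rw [if_neg hp]
        have e : (pk W p c r g + if c + 1 ≤ r then W ^ cnt c r *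
            pk W p (c + 1) (r - (c + 1)) (fun C => g (insert p C)) else 0) % W ^ cnt c r =
              pk W p c r g := by
          split_ifs
          · rw [Nat.add_mul_mod_self_left, Nat.mod_eq_of_lt hl]
          · rw [add_zero, Nat.mod_eq_of_lt hl]
        rw [e]
        exact ih c r g B hg (Vd_out h hp)

/-! ### the operator adding a box -/

/-- the sum over the moves inside the positions below `p` -/
noncomputable def Dg (p : ℕ) (g : Finset ℕ → ℕ) (C : Finset ℕ) : ℕ :=
  ∑ y ∈ range (p - 1), if y ∈ C ∧ y + 1 ∉ C then g (mv C y) else 0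

theorem not_mem_of_sub {p : ℕ} {C : Finset ℕ} (hC : C ⊆ range p) : p ∉ C := fun hh => by
  have := mem_range.1 (hC hh)
  omega

theorem mv_insert {p y : ℕ} {C : Finset ℕ} (hy : y + 1 < p) :
    mv (insert p C) y = insert p (mv C y) := by
  ext z
  simp only [mv, mem_insert, mem_erase]
  constructor
  · rintro (h | ⟨h1, h2 | h2⟩)
    · exact Or.inr (Or.inl h)
    · exact Or.inl h2
    · exact Or.inr (Or.inr ⟨h1, h2⟩)
  · rintro (h | h | h)
    · exact Or.inr ⟨by omega, Or.inl h⟩
    · exact Or.inl h
    · exact Or.inr ⟨h.1, Or.inr h.2⟩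

theorem mv_top {q : ℕ} {C : Finset ℕ} (hC : C ⊆ range q) :
    mv (insert q C) q = insert (q + 1) C := by
  unfold mv
  rw [erase_insert (not_mem_of_sub hC)]

theorem D_in {p : ℕ} (g : Finset ℕ → ℕ) {C : Finset ℕ} :
    Dg (p + 1) g (insert p C) = Dg p (fun C => g (insert p C)) C := by
  unfold Dg
  rw [Nat.add_sub_cancel]
  cases p with
  | zero => rfl
  | succ q =>
    rw [Nat.add_sub_cancel, sum_range_succ, if_neg (fun h => h.2 (mem_insert_self _ _)), add_zero]
    refine sum_congr rfl fun y hy => ?_
    have hy' := mem_range.1 hy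
    rw [mv_insert (by omega)]
    have h1 : y ∈ insert (q + 1) C ↔ y ∈ C := by
      rw [mem_insert]
      exact ⟨fun h => h.resolve_left (by omega), Or.inr⟩
    have h2 : y + 1 ∈ insert (q + 1) C ↔ y + 1 ∈ C := by
      rw [mem_insert]
      exact ⟨fun h => h.resolve_left (by omega), Or.inr⟩
    simp only [h1, h2]

/-- the move of the bead `q` -/
noncomputable def Xg (q : ℕ) (g : Finset ℕ → ℕ) (C : Finset ℕ) : ℕ :=
  if q ∈ C then g (mv C q) else 0

theorem D_out {q : ℕ} (g : Finset ℕ → ℕ) {C : Finset ℕ} (hC : C ⊆ range (q + 1)) :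
    Dg (q + 1 + 1) g C = Dg (q + 1) g C + Xg q g C := by
  unfold Dg Xg
  rw [Nat.add_sub_cancel, Nat.add_sub_cancel, sum_range_succ]
  congr 1
  have h := not_mem_of_sub hC
  by_cases h1 : q ∈ C
  · rw [if_pos ⟨h1, h⟩, if_pos h1]
  · rw [if_neg (fun hh => h1 hh.1), if_neg h1]

theorem pk_col_zero {W : ℕ} : ∀ (p : ℕ) (g : Finset ℕ → ℕ), pk W p 0 0 g = g (range p) := by
  intro p
  induction p with
  | zero => intro g; unfold pk; rw [if_pos ⟨rfl, rfl⟩]; rfl
  | succ p ih =>
    intro g
    unfold pk
    rw [ih, range_add_one]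

theorem pk_col_zero' {W : ℕ} : ∀ (p r : ℕ) (g : Finset ℕ → ℕ), 0 < r → pk W p 0 r g = 0 := by
  intro p
  induction p with
  | zero => intro r g h; unfold pk; rw [if_neg (by omega)]
  | succ p ih =>
    intro r g h
    unfold pk
    exact ih r _ h

theorem pk_none {W c r : ℕ} (hc : 0 < c) (g : Finset ℕ → ℕ) : pk W 0 c r g = 0 := by
  unfold pk
  rw [if_neg (by omega)]

theorem Dg_range (p : ℕ) (g : Finset ℕ → ℕ) : Dg p g (range p) = 0 := by
  unfold Dg
  refine sum_eq_zero fun y hy => if_neg fun h => h.2 ?_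
  have := mem_range.1 hy
  exact mem_range.2 (by omega)

theorem Dg_range_succ (p : ℕ) (g : Finset ℕ → ℕ) :
    Dg (p + 1) g (range p) = pk 0 p 1 0 (fun C => g (insert p C)) := by
  cases p with
  | zero =>
    rw [pk_none one_pos]
    rfl
  | succ q =>
    rw [D_out g (subset_refl _), Dg_range, zero_add]
    unfold Xg
    rw [if_pos (mem_range.2 (Nat.lt_succ_self q))]
    unfold pk
    rw [if_neg (by omega), add_zero, pk_col_zero]
    congr 1
    unfold mv
    rw [range_add_one, erase_insert notMem_range_self]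

theorem pk_one_zero {W : ℕ} (p : ℕ) (g : Finset ℕ → ℕ) : pk W p 1 0 g = pk 0 p 1 0 g := by
  cases p with
  | zero => rw [pk_none one_pos, pk_none one_pos]
  | succ q =>
    unfold pk
    rw [if_neg (by omega), if_neg (by omega), pk_col_zero, pk_col_zero]

theorem pk_one_succ {W : ℕ} (p r : ℕ) (g : Finset ℕ → ℕ) :
    pk W (p + 1) 1 (r + 1) g = pk W p 1 r (fun C => g (insert p C)) := by
  change pk W p 0 (r + 1) g + (if 0 + 1 ≤ r + 1 then W ^ cnt 0 (r + 1) *
    pk W p 1 (r + 1 - 1) (fun C => g (insert p C)) else 0) = _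
  rw [if_pos (by omega), pk_col_zero' p (r + 1) g (by omega), cnt_zero_succ, pow_zero, one_mul,
    zero_add, Nat.add_sub_cancel]

theorem pk_one_zero' {W : ℕ} (p : ℕ) (g : Finset ℕ → ℕ) :
    pk W (p + 1) 1 0 g = g (range p) := by
  change pk W p 0 0 g + (if 0 + 1 ≤ 0 then W ^ cnt 0 0 *
    pk W p 1 (0 - 1) (fun C => g (insert p C)) else 0) = _
  rw [if_neg (by omega), add_zero, pk_col_zero]

/-- one column -/
theorem pk_col_one {W : ℕ} : ∀ (r p : ℕ) (g : Finset ℕ → ℕ),
    pk W p 1 (r + 1) g = pk W p 1 r (Dg p g) := by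
  intro r
  induction r with
  | zero =>
    intro p g
    cases p with
    | zero => rw [pk_none one_pos, pk_none one_pos]
    | succ p => rw [pk_one_succ, pk_one_zero', Dg_range_succ, pk_one_zero]
  | succ r ih =>
    intro p g
    cases p with
    | zero => rw [pk_none one_pos, pk_none one_pos]
    | succ p =>
      rw [pk_one_succ, pk_one_succ, ih]
      refine pk_congr _ _ _ _ _ fun C _ => ?_
      rw [D_in]

theorem nd_eq (W : ℕ) (ih : ℕ → ℕ → ℕ → ℕ) (c c1 c2 r r1 s x : ℕ) :
    nd W ih c c1 c2 r r1 s x = ih c1 r (x % W ^ cnt c1 r) +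
      (x / W ^ cnt c1 r % W ^ cnt c1 s) * W ^ cnt c2 r1 +
      (if s = 0 then 0 else ih (min c s) s (x / W ^ cnt c1 r)) * W ^ cnt c1 r1 := by
  cases s with
  | zero => rfl
  | succ s =>
    rw [if_neg (by omega), ← mn_eq]
    rfl

theorem dq_zero (W : ℕ) : ∀ (f c r : ℕ), dq W f c r 0 = 0 := by
  intro f
  induction f with
  | zero => intro c r; rfl
  | succ f ih =>
    intro c r
    cases c with
    | zero => rfl
    | succ c =>
      cases c with
      | zero => rfl
      | succ c =>
        cases r with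
        | zero => rfl
        | succ r =>
          change nd W (dq W f) (c + 2) (c + 1) c (r + 1) r (r + 1 - (c + 2)) 0 = 0
          rw [nd_eq, Nat.zero_mod, Nat.zero_div, ih, ih, Nat.zero_mod, ite_self]
          simp

/-- the moves into the block -/
theorem cross {W : ℕ} {p c2 r1 : ℕ} {g : Finset ℕ → ℕ} (hg : ∀ C, g C < W) (h : c2 + 2 ≤ r1 + 1) :
    pk W p (c2 + 1) r1 (Dg (p + 1) g) = pk W p (c2 + 1) r1 (Dg p g) +
      (pk W p (c2 + 2) (r1 + 1 - (c2 + 2)) (fun C => g (insert p C)) %
        W ^ cnt (c2 + 1) (r1 + 1 - (c2 + 2))) * W ^ cnt c2 r1 := by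
  cases p with
  | zero =>
    rw [pk_none (by omega), pk_none (by omega), pk_none (by omega), Nat.zero_mod, zero_mul,
      add_zero]
  | succ q =>
    rw [pk_congr (q + 1) (c2 + 1) r1 (Dg (q + 1 + 1) g) (fun C => Dg (q + 1) g C + Xg q g C)
      (fun C hC => D_out g hC), pk_add]
    congr 1
    have e1 : pk W (q + 1) (c2 + 1) r1 (Xg q g) = W ^ cnt c2 r1 *
        pk W q (c2 + 1) (r1 - (c2 + 1)) (fun C => g (insert (q + 1) C)) := by
      conv_lhs => unfold pk
      rw [if_pos (by omega), pk_congr q c2 r1 (Xg q g) (fun _ => 0) (fun C hC => by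
        unfold Xg
        rw [if_neg (not_mem_of_sub hC)]), pk_zero, zero_add]
      congr 1
      refine pk_congr _ _ _ _ _ fun C hC => ?_
      unfold Xg
      rw [if_pos (mem_insert_self _ _), mv_top hC]
    rw [e1, mul_comm]
    congr 1
    have e2 : r1 + 1 - (c2 + 2) = r1 - (c2 + 1) := by omega
    rw [e2]
    have hl := pk_lt (W := W) q (c2 + 1) (r1 - (c2 + 1)) (fun C => g (insert (q + 1) C))
      fun C => hg _
    have e3 : pk W (q + 1) (c2 + 2) (r1 - (c2 + 1)) (fun C => g (insert (q + 1) C)) =
        pk W q (c2 + 1) (r1 - (c2 + 1)) (fun C => g (insert (q + 1) C)) +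
        if c2 + 1 + 1 ≤ r1 - (c2 + 1) then W ^ cnt (c2 + 1) (r1 - (c2 + 1)) *
          pk W q (c2 + 1 + 1) (r1 - (c2 + 1) - (c2 + 1 + 1))
            (fun C => g (insert (q + 1) (insert q C))) else 0 := rfl
    rw [e3]
    split_ifs
    · rw [Nat.add_mul_mod_self_left, Nat.mod_eq_of_lt hl]
    · rw [add_zero, Nat.mod_eq_of_lt hl]

/-- the case `c ≤ r` -/
theorem dq_core {W f : ℕ}
    (ih : ∀ (c r p : ℕ) (g : Finset ℕ → ℕ), (∀ C, g C < W) → min c (r + 1) + (r + 1) ≤ f →
      dq W f (min c (r + 1)) (r + 1) (pk W p c (r + 1) g) = pk W p c r (Dg p g))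
    {c2 r1 p : ℕ} {g : Finset ℕ → ℕ} (hg : ∀ C, g C < W) (h : c2 + 2 ≤ r1 + 1)
    (hf : c2 + 2 + (r1 + 1) ≤ f + 1) :
    dq W (f + 1) (c2 + 2) (r1 + 1) (pk W p (c2 + 2) (r1 + 1) g) =
      pk W p (c2 + 2) r1 (Dg p g) := by
  cases p with
  | zero => rw [pk_none (by omega), pk_none (by omega), dq_zero]
  | succ p =>
    change nd W (dq W f) (c2 + 2) (c2 + 1) c2 (r1 + 1) r1 (r1 + 1 - (c2 + 2)) _ = _
    rw [nd_eq]
    have hW : 0 < W := lt_of_le_of_lt (Nat.zero_le _) (hg ∅)
    have hM : 0 < W ^ cnt (c2 + 1) (r1 + 1) := pow_pos hW _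
    have hx : pk W (p + 1) (c2 + 2) (r1 + 1) g = pk W p (c2 + 1) (r1 + 1) g +
        W ^ cnt (c2 + 1) (r1 + 1) *
          pk W p (c2 + 2) (r1 + 1 - (c2 + 2)) (fun C => g (insert p C)) := by
      conv_lhs => unfold pk
      rw [if_pos h]
    have hl := pk_lt (W := W) p (c2 + 1) (r1 + 1) g hg
    have h1 : pk W (p + 1) (c2 + 2) (r1 + 1) g % W ^ cnt (c2 + 1) (r1 + 1) =
        pk W p (c2 + 1) (r1 + 1) g := by
      rw [hx, Nat.add_mul_mod_self_left, Nat.mod_eq_of_lt hl]
    have h2 : pk W (p + 1) (c2 + 2) (r1 + 1) g / W ^ cnt (c2 + 1) (r1 + 1) =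
        pk W p (c2 + 2) (r1 + 1 - (c2 + 2)) (fun C => g (insert p C)) := by
      rw [hx, Nat.add_mul_div_left _ _ hM, Nat.div_eq_of_lt hl, zero_add]
    rw [h1, h2]
    have i1 := ih (c2 + 1) r1 p g hg (by rw [min_eq_left (by omega)]; omega)
    rw [min_eq_left (by omega)] at i1
    rw [i1, ← cross hg h]
    conv_rhs => unfold pk
    congr 1
    by_cases hs : r1 + 1 - (c2 + 2) = 0
    · rw [if_pos hs, zero_mul, if_neg (by omega)]
    · rw [if_neg hs, if_pos (by omega), mul_comm]
      congr 1
      obtain ⟨s, hs'⟩ : ∃ s, r1 + 1 - (c2 + 2) = s + 1 := ⟨r1 + 1 - (c2 + 2) - 1, by omega⟩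
      have i2 := ih (c2 + 2) s p (fun C => g (insert p C)) (fun C => hg _) (by
        have := min_le_left (c2 + 2) (s + 1)
        omega)
      rw [hs', i2, show r1 - (c2 + 1 + 1) = s by omega]
      refine pk_congr _ _ _ _ _ fun C _ => ?_
      rw [D_in]

theorem pk_skip {W p c r : ℕ} (hc : r < c) {X : Finset ℕ → ℕ}
    (hX : ∀ C, p - 1 ∉ C ∨ p = 0 → X C = 0) : pk W p c r X = 0 := by
  cases p with
  | zero => rw [pk_congr 0 c r X (fun _ => 0) (fun C _ => hX C (Or.inr rfl)), pk_zero]
  | succ q =>
    cases c with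
    | zero => omega
    | succ c =>
      unfold pk
      rw [if_neg (by omega), add_zero, pk_congr q c r X (fun _ => 0) (fun C hC =>
        hX C (Or.inl (by rw [Nat.add_sub_cancel]; exact not_mem_of_sub hC))), pk_zero]

/-- **the operator on packed functions** -/
theorem dq_pk {W : ℕ} : ∀ (f c r p : ℕ) (g : Finset ℕ → ℕ), (∀ C, g C < W) →
    min c (r + 1) + (r + 1) ≤ f →
    dq W f (min c (r + 1)) (r + 1) (pk W p c (r + 1) g) = pk W p c r (Dg p g) := by
  intro f
  induction f with
  | zero => intro c r p g _ h; omega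
  | succ f ihf =>
    intro c
    induction c with
    | zero =>
      intro r p g _ _
      rw [Nat.zero_min, pk_col_zero' p (r + 1) g (by omega), dq_zero]
      rcases Nat.eq_zero_or_pos r with hr | hr
      · rw [hr, pk_col_zero, Dg_range]
      · rw [pk_col_zero' p r _ hr]
    | succ c ihc =>
      intro r p g hg hf
      rcases Nat.lt_or_ge (r + 1) (c + 1) with h | h
      · -- the first row is shorter
        rw [min_eq_right (by omega)] at hf ⊢
        have i1 : ∀ (p : ℕ), dq W (f + 1) (r + 1) (r + 1) (pk W p c (r + 1) g) =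
            pk W p c r (Dg p g) := by
          intro p
          have := ihc r p g hg (by rw [min_eq_right (by omega)]; omega)
          rwa [min_eq_right (by omega)] at this
        cases p with
        | zero => rw [pk_none (by omega), pk_none (by omega), dq_zero]
        | succ p =>
          have e1 : pk W (p + 1) (c + 1) (r + 1) g = pk W p c (r + 1) g := by
            conv_lhs => unfold pk
            rw [if_neg (by omega), add_zero]
          have e2 : pk W (p + 1) (c + 1) r (Dg (p + 1) g) = pk W p c r (Dg (p + 1) g) := by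
            conv_lhs => unfold pk
            rw [if_neg (by omega), add_zero]
          rw [e1, e2, i1]
          cases p with
          | zero => rw [pk_none (by omega), pk_none (by omega)]
          | succ q =>
            rw [pk_congr (q + 1) c r (Dg (q + 1 + 1) g) (fun C => Dg (q + 1) g C + Xg q g C)
              (fun C hC => D_out g hC), pk_add, pk_skip (W := W) (p := q + 1) (c := c) (r := r)
                (X := Xg q g) (by omega), add_zero]
            rintro C (hC | hC)
            · unfold Xg
              rw [Nat.add_sub_cancel] at hC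
              rw [if_neg hC]
            · omega
      · rw [min_eq_left h] at hf ⊢
        cases c with
        | zero =>
          change pk W p 1 (r + 1) g = _
          exact pk_col_one r p g
        | succ c2 => exact dq_core ihf hg h hf

/-! ### the bounds of the digits -/

theorem eQ_col_zero {W : ℕ} : ∀ (p x : ℕ) (B : Finset ℕ),
    eQ W p 0 0 x B = if range p ⊆ B then x else 0 := by
  intro p
  induction p with
  | zero =>
    intro x B
    unfold eQ
    rw [if_pos ⟨rfl, rfl⟩, range_zero, if_pos (empty_subset _)]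
  | succ p ih =>
    intro x B
    unfold eQ
    by_cases h : p ∈ B
    · rw [if_pos h, ih]
      simp only [Cert.range_succ_sub h]
    · rw [if_neg h, if_neg (Cert.range_succ_not h)]

theorem Vd_col_zero {p r : ℕ} {B : Finset ℕ} (h : Vd p 0 r B) : r = 0 ∧ range p ⊆ B := by
  obtain ⟨h1, h2, h3⟩ := h
  rw [add_zero] at h2
  have h4 : B = range p := eq_of_subset_of_card_le h1 (by rw [card_range]; omega)
  rw [h2, ← h4] at h3
  exact ⟨by omega, by rw [← h4]⟩

theorem eQ_col_one {W : ℕ} : ∀ (p r x : ℕ) (B : Finset ℕ), Vd p 1 r B → x < W →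
    eQ W p 1 r x B = x := by
  intro p
  induction p with
  | zero =>
    intro r x B h _
    have := (Vd_zero h).1
    omega
  | succ p ih =>
    intro r x B h hx
    unfold eQ
    by_cases hp : p ∈ B
    · obtain ⟨h1, h2⟩ := Vd_in h hp
      obtain ⟨r', rfl⟩ : ∃ r', r = r' + 1 := ⟨r - 1, by omega⟩
      rw [if_pos hp, if_pos (by omega), cnt_zero_succ, pow_zero, Nat.div_one, ← eQ_erase]
      exact ih _ x (B.erase p) h2 hx
    · obtain ⟨h1, h2⟩ := Vd_col_zero (Vd_out h hp)
      rw [if_neg hp, h1, cnt_zero_zero, pow_one, Nat.mod_eq_of_lt hx, eQ_col_zero, if_pos h2]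

theorem okq_succ (W lo hi f c r x : ℕ) : okq W lo hi (f + 1) (c + 2) r x =
    cond (okq W lo hi f (c + 1) r (x % W ^ cnt (c + 1) r))
      (okq W lo hi f (min (c + 2) (r - (c + 2))) (r - (c + 2)) (x / W ^ cnt (c + 1) r)) false := by
  rw [← mn_eq]
  rfl

theorem cond_tt {a b : Bool} (h : cond a b false = true) : a = true ∧ b = true := by
  cases a
  · exact absurd h Bool.false_ne_true
  · exact ⟨rfl, h⟩

theorem okq_sound {W lo hi : ℕ} (hhi : hi < W) : ∀ (f c r x : ℕ),
    okq W lo hi f (min c r) r x = true → x < W ^ cnt c r → ∀ (p : ℕ) (B : Finset ℕ),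
      eQ W p c r x B ≤ hi ∧ (Vd p c r B → lo ≤ eQ W p c r x B) := by
  intro f
  induction f with
  | zero =>
    intro c r x h
    exact absurd h Bool.false_ne_true
  | succ f ihf =>
    intro c
    induction c with
    | zero =>
      intro r x h hx p B
      rw [Nat.zero_min] at h
      obtain ⟨h1, h2⟩ := cond_tt (a := Nat.ble lo x) (b := Nat.ble x hi) h
      have h3 := Nat.le_of_ble_eq_true h1
      have h4 := Nat.le_of_ble_eq_true h2
      refine ⟨(eQ_le _ _ _ _ _).trans h4, fun hv => ?_⟩
      obtain ⟨h5, h6⟩ := Vd_col_zero hv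
      rw [h5, eQ_col_zero, if_pos h6]
      exact h3
    | succ c ihc =>
      intro r x h hx p B
      have hW : 0 < W := lt_of_le_of_lt (Nat.zero_le _) hhi
      rcases Nat.lt_or_ge r (c + 1) with hr | hr
      · rw [min_eq_right (by omega)] at h
        have i1 := ihc r x (by rwa [min_eq_right (by omega)]) (by
          rwa [cnt_succ_lt (by omega)] at hx)
        have hxm : x % W ^ cnt c r = x := Nat.mod_eq_of_lt (by
          rwa [cnt_succ_lt (by omega)] at hx)
        cases p with
        | zero =>
          refine ⟨?_, fun hv => absurd (Vd_zero hv).1 (by omega)⟩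
          unfold eQ
          rw [if_neg (by omega)]
          exact Nat.zero_le _
        | succ p =>
          by_cases hp : p ∈ B
          · refine ⟨?_, fun hv => absurd (Vd_in hv hp).1 (by omega)⟩
            unfold eQ
            rw [if_pos hp, if_neg (by omega)]
            exact Nat.zero_le _
          · have e : eQ W (p + 1) (c + 1) r x B = eQ W p c r x B := by
              conv_lhs => unfold eQ
              rw [if_neg hp, hxm]
            rw [e]
            exact ⟨(i1 p B).1, fun hv => (i1 p B).2 (Vd_out hv hp)⟩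
      · rw [min_eq_left hr] at h
        cases c with
        | zero =>
          obtain ⟨h1, h2⟩ := cond_tt (a := Nat.ble lo x) (b := Nat.ble x hi) h
          have h3 := Nat.le_of_ble_eq_true h1
          have h4 := Nat.le_of_ble_eq_true h2
          refine ⟨(eQ_le _ _ _ _ _).trans h4, fun hv => ?_⟩
          rw [eQ_col_one p r x B hv (by omega)]
          exact h3
        | succ c =>
          rw [okq_succ] at h
          obtain ⟨h1, h2⟩ := cond_tt h
          have hM : 0 < W ^ cnt (c + 1) r := pow_pos hW _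
          have i1 := ihf (c + 1) r _ (by rwa [min_eq_left (by omega)]) (Nat.mod_lt x hM)
          have i2 := ihf (c + 2) (r - (c + 2)) _ h2 (by
            rw [cnt_succ_le hr, pow_add] at hx
            exact Nat.div_lt_of_lt_mul hx)
          cases p with
          | zero =>
            refine ⟨?_, fun hv => absurd (Vd_zero hv).1 (by omega)⟩
            unfold eQ
            rw [if_neg (by omega)]
            exact Nat.zero_le _
          | succ p =>
            by_cases hp : p ∈ B
            · have e : eQ W (p + 1) (c + 1 + 1) r x B =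
                  eQ W p (c + 2) (r - (c + 2)) (x / W ^ cnt (c + 1) r) B := by
                conv_lhs => unfold eQ
                rw [if_pos hp, if_pos hr]
              rw [e]
              refine ⟨(i2 p B).1, fun hv => ?_⟩
              rw [← eQ_erase]
              exact (i2 p (B.erase p)).2 (Vd_in hv hp).2
            · have e : eQ W (p + 1) (c + 1 + 1) r x B =
                  eQ W p (c + 1) r (x % W ^ cnt (c + 1) r) B := by
                conv_lhs => unfold eQ
                rw [if_neg hp]
              rw [e]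
              exact ⟨(i1 p B).1, fun hv => (i1 p B).2 (Vd_out hv hp)⟩

/-! ### the comparison -/

theorem chk_sound {W D : ℕ} : ∀ (F : T) (p c r x : ℕ), chk W D F p c r x = true →
    ∀ B : Finset ℕ, eQ W p c r x B = D * ev F p B := by
  intro F
  induction F with
  | z =>
    intro p c r x h B
    have h1 : x = 0 := Nat.eq_of_beq_eq_true h
    rw [h1, eQ_zero, Cert.ev_z, mul_zero]
  | o v =>
    intro p c r x h B
    cases c with
    | zero =>
      cases r with
      | zero =>
        have h1 : x = D * v := Nat.eq_of_beq_eq_true h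
        rw [eQ_col_zero, Cert.ev_o, h1]
        split_ifs
        · rfl
        · rw [mul_zero]
      | succ r => exact absurd h Bool.false_ne_true
    | succ c => exact absurd h Bool.false_ne_true
  | n a b iha ihb =>
    intro p c r x h B
    cases p with
    | zero => exact absurd h Bool.false_ne_true
    | succ q =>
      cases c with
      | zero => exact absurd h Bool.false_ne_true
      | succ c =>
        have h' : cond (chk W D a q c r (x % W ^ cnt c r))
            (cond (Nat.ble (c + 1) r) (chk W D b q (c + 1) (r - (c + 1)) (x / W ^ cnt c r))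
              (T.rec true (fun _ => false) (fun _ _ _ _ => false) b)) false = true := h
        obtain ⟨h1, h2⟩ := cond_tt h'
        rw [Cert.ev_n]
        unfold eQ
        by_cases hq : q ∈ B
        · rw [if_pos hq, if_pos hq]
          cases hcr : Nat.ble (c + 1) r with
          | true =>
            rw [hcr] at h2
            rw [if_pos (Nat.le_of_ble_eq_true hcr)]
            exact ihb _ _ _ _ h2 B
          | false =>
            rw [hcr] at h2
            have h3 : ¬ c + 1 ≤ r := fun h' => by
              rw [Nat.ble_eq_true_of_le h'] at hcr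
              exact absurd hcr (by decide)
            rw [if_neg h3]
            cases b with
            | z => rw [Cert.ev_z, mul_zero]
            | o v => exact absurd h2 Bool.false_ne_true
            | n _ _ => exact absurd h2 Bool.false_ne_true
        · rw [if_neg hq, if_neg hq]
          exact iha _ _ _ _ h1 B

/-! ### the restriction operator -/

/-- the function of a packed number, divided by `ex` -/
noncomputable def Vq (W p c r x : ℕ) (B : Finset ℕ) : ℝ := (eQ W p c r x B : ℝ) / ex B

theorem Dw_Vq {W wl c r x x' : ℕ} {B : Finset ℕ}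
    (h : eQ W (wl + 1) c r x' B = Dg (wl + 1) (eQ W (wl + 1) c (r + 1) x) B) :
    Dw wl (Vq W (wl + 1) c (r + 1) x) B = Vq W (wl + 1) c r x' B := by
  unfold Dw Vq
  rw [h]
  unfold Dg
  rw [Nat.add_sub_cancel, ← sum_filter]
  have e : (ad B).filter (fun x => x < wl) =
      (range wl).filter (fun x => x ∈ B ∧ x + 1 ∉ B) := by
    ext x
    rw [mem_filter, mem_filter, mem_ad, mem_range]
    exact and_comm
  rw [← e]
  push_cast
  rw [sum_div]
  refine sum_congr rfl fun x hx => ?_
  have hx' := (mem_filter.1 hx).1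
  rw [ex_mv hx']
  have h1 := (Cert.w_pos' hx').ne'
  have h2 := (ex_pos B).ne'
  field_simp

theorem Vd_of {m K n : ℕ} (hm : 1 ≤ m) (hK : 0 < K) {B : Finset ℕ} (hB : B ∈ Lv K n)
    (hb : Bl m K B) : Vd (K - 1 + m) (m - 1) n B := by
  obtain ⟨h1, -, -, h4⟩ := Lv_spec hB
  refine ⟨fun x hx => mem_range.2 (hb x hx), by omega, ?_⟩
  rw [h1]
  exact h4

theorem Dg_le {hi p : ℕ} {g : Finset ℕ → ℕ} (hg : ∀ C, g C ≤ hi) (C : Finset ℕ) :
    Dg p g C ≤ p * hi := by
  unfold Dg
  refine (sum_le_card_nsmul (range (p - 1)) _ hi fun y _ => ?_).trans ?_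
  · split_ifs
    · exact hg _
    · exact Nat.zero_le _
  · rw [card_range, smul_eq_mul]
    exact Nat.mul_le_mul_right _ (Nat.sub_le _ _)

/-- one level -/
theorem step {W hi f p c r x : ℕ} (hW : p * hi < W) (hp : 0 < p) (hcr : c ≤ r + 1)
    (hpr : c + (r + 1) ≤ p) (hf : c + (r + 1) ≤ f) (hx : x < W ^ cnt c (r + 1))
    (hok : okq W 1 hi f c (r + 1) x = true) :
    dq W f c (r + 1) x < W ^ cnt c r ∧ ∀ B, Vd p c r B →
      eQ W p c r (dq W f c (r + 1) x) B = Dg p (eQ W p c (r + 1) x) B := by
  have hhi : hi < W := lt_of_le_of_lt (Nat.le_mul_of_pos_left hi hp) hW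
  have hW0 : 0 < W := lt_of_le_of_lt (Nat.zero_le _) hW
  have h1 : ∀ C, eQ W p c (r + 1) x C ≤ hi := fun C =>
    (okq_sound hhi f c (r + 1) x (by rwa [min_eq_left hcr]) hx p C).1
  have h2 := pk_eQ hW0 p c (r + 1) x hpr hx
  have h3 := dq_pk f c r p (eQ W p c (r + 1) x) (fun C => lt_of_le_of_lt (h1 C) hhi)
    (by rw [min_eq_left hcr]; exact hf)
  rw [min_eq_left hcr, h2] at h3
  have h4 : ∀ C, Dg p (eQ W p c (r + 1) x) C < W := fun C => lt_of_le_of_lt (Dg_le h1 C) hW
  rw [h3]
  exact ⟨pk_lt p c r _ h4, fun B hB => eQ_pk p c r _ B h4 hB⟩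

theorem Dwi_succ' (wl j : ℕ) (u : Finset ℕ → ℝ) : Dwi wl (j + 1) u = Dwi wl j (Dw wl u) := by
  rw [← Dwi_comp wl j 1 u]
  rfl

/-- all levels -/
theorem run_sound {W hi f m K n D : ℕ} {F : T} (hm : 2 ≤ m) (hK : 0 < K) (hn : m ≤ n + 1)
    (hW : (K + m - 2 + 1) * hi < W) :
    ∀ (j x : ℕ), m - 1 + (n + j) ≤ K + m - 2 + 1 → m - 1 + (n + j) ≤ f →
      x < W ^ cnt (m - 1) (n + j) →
      run W hi f (m - 1) D (K + m - 2 + 1) F j (n + j) x = true →
      ∀ B ∈ Lv K n, Bl m K B →
        Dwi (K + m - 2) j (Vq W (K + m - 2 + 1) (m - 1) (n + j) x) B =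
          (D * ev F (K + m - 2 + 1) B : ℝ) / ex B := by
  intro j
  induction j with
  | zero =>
    intro x _ _ _ hr B _ _
    have h1 := chk_sound F (K + m - 2 + 1) (m - 1) n x hr B
    change (eQ W (K + m - 2 + 1) (m - 1) n x B : ℝ) / ex B = _
    rw [h1]
    push_cast
    rfl
  | succ j ih =>
    intro x hp hf hx hr B hB hb
    have hr' : cond (okq W 1 hi f (m - 1) (n + j + 1) x)
      (run W hi f (m - 1) D (K + m - 2 + 1) F j (n + j) (dq W f (m - 1) (n + j + 1) x)) false =
        true := hr
    obtain ⟨h1, h2⟩ := cond_tt hr'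
    obtain ⟨h3, h4⟩ := step (r := n + j) hW (by omega) (by omega) hp hf hx h1
    rw [Dwi_succ']
    have h5 := Dwi_congr hK hm j n (Dw (K + m - 2) (Vq W (K + m - 2 + 1) (m - 1) (n + (j + 1)) x))
      (Vq W (K + m - 2 + 1) (m - 1) (n + j) (dq W f (m - 1) (n + j + 1) x)) (by
        intro C hC hc
        refine Dw_Vq (h4 C ?_)
        have := Vd_of (by omega) hK hC hc
        rwa [show K - 1 + m = K + m - 2 + 1 by omega] at this) B hB hb
    rw [h5]
    exact ih _ (by omega) (by omega) h3 h2 B hB hb

/-- **The certificate at the threshold**, packed. -/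
theorem threshold_of_run {m W hi f D x : ℕ} (hm : 4 ≤ m) (hD : 0 < D)
    (hW : (3 * m - 4 + 1) * hi < W) (hf : 3 * m ≤ f)
    (hx : Nat.ble (Nat.succ x) (pw W (m - 1) (2 * m - 3)) = true)
    (hr : run W hi f (m - 1) D (3 * m - 4 + 1)
      (Cert.ui (3 * m - 4 + 1) m (Cert.t0 (m - 1))) (m - 3) (2 * m - 3) x = true) :
    Threshold m := by
  have hx' : x < W ^ cnt (m - 1) (2 * m - 3) := Nat.le_of_ble_eq_true hx
  have hwl : 2 * m - 2 - 1 + m = 3 * m - 4 + 1 := by omega
  have hwl' : 2 * m - 2 + m - 2 = 3 * m - 4 := by omega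
  have hN : m + (m - 3) = 2 * m - 3 := by omega
  have hc : 0 < ex (range (2 * m - 2)) := ex_pos _
  have hD' : (0 : ℝ) < D := by exact_mod_cast hD
  have hm' : (0 : ℝ) < m.factorial := by exact_mod_cast m.factorial_pos
  refine ⟨2 * m - 2, fun B => (ex (range (2 * m - 2)) / (D * m.factorial)) *
    Vq W (3 * m - 4 + 1) (m - 1) (2 * m - 3) x B, by omega, ?_, ?_⟩
  · intro B hB hb
    have hB' : B ⊆ range (2 * m - 2 - 1 + m) := fun x hx => mem_range.2 (hb x hx)
    have h0 := run_sound (m := m) (K := 2 * m - 2) (n := m) (D := D) (f := f) (W := W) (hi := hi)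
      (F := Cert.ui (3 * m - 4 + 1) m (Cert.t0 (m - 1))) (by omega) (by omega) (by omega)
      (by rwa [hwl']) (m - 3) x (by omega) (by omega) (by rwa [hN])
      (by rw [hwl', hN]; exact hr) B hB hb
    rw [hwl', hN] at h0
    rw [hwl', Dwi_smul]
    change ex (range (2 * m - 2)) / (D * m.factorial) *
      (Dwi (3 * m - 4) (m - 3) (Vq W (3 * m - 4 + 1) (m - 1) (2 * m - 3) x) B) = 1
    rw [h0]
    have h1 := Cert.ev_ui (K := 2 * m - 2) (m := m) (by omega) (by omega) m B hB hB'
    rw [hwl] at h1
    have h2 := (ex_pos B).ne'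
    have h3 : (ev (Cert.ui (3 * m - 4 + 1) m (Cert.t0 (m - 1))) (3 * m - 4 + 1) B : ℝ) =
        m.factorial * ex B / ex (range (2 * m - 2)) := by
      rw [h1]
      field_simp
    rw [h3]
    field_simp
  · intro B hB hb
    have hv := Vd_of (m := m) (by omega) (by omega) hB hb
    rw [hwl, hN] at hv
    obtain ⟨j, hj⟩ : ∃ j, m - 3 = j + 1 := ⟨m - 4, by omega⟩
    obtain ⟨r, hr1⟩ : ∃ r, 2 * m - 3 = r + 1 := ⟨2 * m - 4, by omega⟩
    rw [hj, hr1] at hr
    have hr' : cond (okq W 1 hi f (m - 1) (r + 1) x)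
      (run W hi f (m - 1) D (3 * m - 4 + 1) (Cert.ui (3 * m - 4 + 1) m (Cert.t0 (m - 1))) j r
        (dq W f (m - 1) (r + 1) x)) false = true := hr
    have hhi : hi < W := lt_of_le_of_lt (Nat.le_mul_of_pos_left hi (by omega)) hW
    rw [hr1] at hx'
    have h5 := (okq_sound hhi f (m - 1) (r + 1) x (by
      rw [min_eq_left (by omega)]
      exact (cond_tt hr').1) hx' (3 * m - 4 + 1) B).2 (by rwa [hr1] at hv)
    rw [← hr1] at h5
    have h6 : (0 : ℝ) < eQ W (3 * m - 4 + 1) (m - 1) (2 * m - 3) x B := by exact_mod_cast h5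
    exact mul_pos (div_pos hc (mul_pos hD' hm')) (div_pos h6 (ex_pos B))

end Pool.JM.Pack
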