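import Pool.Agent.Work.MP_46fa68_h48.Pack

/-!
# MP_46fa68_co: packed certificates, faster version

`dqf` is `dq` with a closed formula for two columns; the digits of a packed number are bounded by one
bitwise operation (`msk`); positivity comes for free from adding `1` to all digits (`rep`).
-/

set_option autoImplicit false

open Finset

namespace Pool.JM.Pack

open Pool.JM.Cert (T ev)

/-- the operator adding a box, with a closed formula for two columns -/
noncomputable def dqf (W : ℕ) : ℕ → ℕ → ℕ → ℕ → ℕ :=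
  Nat.rec (fun _ _ x => x)
    (fun _ ih c r x => Nat.rec x (fun c1 _ => Nat.rec x (fun c2 _ => Nat.rec x (fun r1 _ =>
      Nat.rec (Nat.add (Nat.mod x (pw W 2 r1)) (Nat.div x W))
        (fun _ _ => fc (Nat.sub r c) (fun s => nd W ih c c1 c2 r r1 s x)) c2) r) c1) c)

/-- the number with `n` digits `1` -/
noncomputable def rep (W n : ℕ) : ℕ := Nat.div (Nat.sub (Nat.pow W n) 1) (Nat.sub W 1)

/-- all digits in base `W = 2 ^ (v + 7)` are below `2 ^ v` -/
noncomputable def msk (W v n x : ℕ) : Bool :=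
  Nat.beq (Nat.land x (Nat.mul (Nat.mul (Nat.pow 2 v) 127) (rep W n))) 0

/-- all levels: bound of the digits, then the operator, at the end the comparison -/
noncomputable def run2 (W v fu c D P : ℕ) (F : T) : ℕ → ℕ → ℕ → Bool :=
  Nat.rec (fun r x => chk W D F P c r x)
    (fun _ ih r x => cond (msk W v (cnt c r) x)
      (Nat.rec false (fun r1 _ => fb (dqf W fu c r x) (ih r1)) r) false)

/-! ### two columns -/

theorem dq_one (W f r x : ℕ) : dq W f 1 r x = x := by
  cases f with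
  | zero => rfl
  | succ f => rfl

theorem cnt_two (r : ℕ) : cnt 2 (r + 2) = 1 + cnt 2 r := by
  rw [cnt_succ_le (by omega : 1 + 1 ≤ r + 2), cnt_one, show r + 2 - (1 + 1) = r by omega]

theorem dq_two {W : ℕ} : ∀ (r f x : ℕ), r + 4 ≤ f → x < W ^ cnt 2 (r + 2) →
    dq W f 2 (r + 2) x = x % W ^ cnt 2 (r + 1) + x / W := by
  intro r
  induction r using Nat.strong_induction_on with
  | _ r ih =>
    intro f x hf hx
    obtain ⟨f, rfl⟩ : ∃ f', f = f' + 1 := ⟨f - 1, by omega⟩
    change nd W (dq W f) 2 1 0 (r + 2) (r + 1) (r + 2 - 2) x = _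
    rw [nd_eq, cnt_one, cnt_one, cnt_one, cnt_zero_succ, pow_one, pow_zero, mul_one, dq_one,
      show r + 2 - 2 = r by omega]
    rw [cnt_two, pow_add, pow_one] at hx
    have hb : x / W < W ^ cnt 2 r := Nat.div_lt_of_lt_mul hx
    rcases Nat.lt_or_ge r 2 with hr | hr
    · rcases Nat.eq_zero_or_pos r with h0 | h0
      · subst h0
        rw [show cnt 2 (0 + 1) = 1 from rfl, pow_one, if_pos rfl, zero_mul, add_zero,
          Nat.mod_eq_of_lt (a := x / W)]
        rwa [show cnt 2 0 = 1 from rfl, pow_one] at hb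
      · obtain rfl : r = 1 := by omega
        rw [show cnt 2 1 = 1 from rfl, pow_one] at hb hx
        rw [show cnt 2 (1 + 1) = 2 from rfl, if_neg (by omega), show min 2 1 = 1 from rfl, dq_one,
          Nat.mod_eq_of_lt hb, Nat.mod_eq_of_lt (a := x) (b := W ^ 2) (by rw [pow_two]; exact hx)]
        have := Nat.mod_add_div x W
        rw [mul_comm (x / W) W]
        omega
    · obtain ⟨r', rfl⟩ : ∃ r', r = r' + 2 := ⟨r - 2, by omega⟩
      rw [if_neg (by omega), min_eq_left (by omega), ih r' (by omega) f (x / W) (by omega) hb,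
        show r' + 2 + 1 = r' + 1 + 2 by omega, cnt_two (r' + 1), pow_add, pow_one, Nat.mod_mul]
      have h1 := Nat.mod_add_div (x / W) W
      rw [add_mul, mul_comm (x / W / W) W, mul_comm (x / W % W ^ cnt 2 (r' + 1)) W]
      omega

theorem dqf_eq {W : ℕ} (hW : 0 < W) : ∀ (f c r x : ℕ), c ≤ r → c + r ≤ f → x < W ^ cnt c r →
    dqf W f c r x = dq W f c r x := by
  intro f
  induction f with
  | zero => intro c r x _ _ _; rfl
  | succ f ih =>
    intro c r x hcr hf hx
    cases c with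
    | zero => rfl
    | succ c1 =>
      cases c1 with
      | zero => rfl
      | succ c2 =>
        obtain ⟨r1, rfl⟩ : ∃ r1, r = r1 + 1 := ⟨r - 1, by omega⟩
        cases c2 with
        | zero =>
          obtain ⟨r', rfl⟩ : ∃ r', r1 = r' + 1 := ⟨r1 - 1, by omega⟩
          exact (dq_two r' (f + 1) x (by omega) hx).symm
        | succ c3 =>
          change nd W (dqf W f) (c3 + 3) (c3 + 2) (c3 + 1) (r1 + 1) r1 (r1 + 1 - (c3 + 3)) x =
            nd W (dq W f) (c3 + 3) (c3 + 2) (c3 + 1) (r1 + 1) r1 (r1 + 1 - (c3 + 3)) x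
          rw [nd_eq, nd_eq]
          have hM : 0 < W ^ cnt (c3 + 2) (r1 + 1) := pow_pos hW _
          have e1 := ih (c3 + 2) (r1 + 1) (x % W ^ cnt (c3 + 2) (r1 + 1)) (by omega) (by omega)
            (Nat.mod_lt _ hM)
          rw [e1]
          by_cases hs : r1 + 1 - (c3 + 3) = 0
          · rw [if_pos hs, if_pos hs]
          · have hb : x / W ^ cnt (c3 + 2) (r1 + 1) < W ^ cnt (c3 + 3) (r1 + 1 - (c3 + 3)) := by
              rw [cnt_succ_le hcr, pow_add] at hx
              exact Nat.div_lt_of_lt_mul hx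
            have hmin := min_le_left (c3 + 3) (r1 + 1 - (c3 + 3))
            have e2 := ih (min (c3 + 3) (r1 + 1 - (c3 + 3))) (r1 + 1 - (c3 + 3))
              (x / W ^ cnt (c3 + 2) (r1 + 1)) (min_le_right _ _) (by omega)
              (by rw [cnt_min]; exact hb)
            rw [if_neg hs, if_neg hs, e2]

/-! ### the digits -/

theorem rep_eq {W : ℕ} (hW : 2 ≤ W) (n : ℕ) : rep W n = ∑ k ∈ range n, W ^ k :=
  (Nat.geomSum_eq hW n).symm

theorem rep_zero {W : ℕ} (hW : 2 ≤ W) : rep W 0 = 0 := by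
  rw [rep_eq hW, range_zero, sum_empty]

theorem rep_one {W : ℕ} (hW : 2 ≤ W) : rep W 1 = 1 := by
  rw [rep_eq hW, range_one, sum_singleton, pow_zero]

theorem rep_add {W : ℕ} (hW : 2 ≤ W) (a b : ℕ) : rep W (a + b) = rep W a + W ^ a * rep W b := by
  rw [rep_eq hW, rep_eq hW, rep_eq hW, sum_range_add, mul_sum]
  congr 1
  exact sum_congr rfl fun k _ => pow_add _ _ _

theorem mul_rep_lt {W t : ℕ} (hW : 2 ≤ W) (ht : t < W) (n : ℕ) : t * rep W n < W ^ n := by
  induction n with
  | zero => rw [rep_zero hW, mul_zero, pow_zero]; exact one_pos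
  | succ n ih =>
    rw [rep_add hW, rep_one hW, mul_one, mul_add, pow_succ]
    have h1 : t * W ^ n ≤ (W - 1) * W ^ n := Nat.mul_le_mul_right _ (by omega)
    have h2 : (W - 1) * W ^ n + W ^ n = W ^ n * W := by
      obtain ⟨w, rfl⟩ : ∃ w, W = w + 1 := ⟨W - 1, by omega⟩
      rw [Nat.add_sub_cancel]
      ring
    omega

theorem land_split {v W t a b x : ℕ} (hW : W = 2 ^ (v + 7)) (ht : t < W)
    (h : x &&& (t * rep W (a + b)) = 0) :
    (x % W ^ a) &&& (t * rep W a) = 0 ∧ (x / W ^ a) &&& (t * rep W b) = 0 := by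
  have hW2 : 2 ≤ W := by
    rw [hW, pow_add]
    have : 0 < 2 ^ v := pow_pos (by omega) v
    omega
  have hWa : W ^ a = 2 ^ ((v + 7) * a) := by rw [hW, ← pow_mul]
  have hl := mul_rep_lt hW2 ht a
  have hM : t * rep W (a + b) = t * rep W a + W ^ a * (t * rep W b) := by
    rw [rep_add hW2]
    ring
  have h1 : (t * rep W (a + b)) % W ^ a = t * rep W a := by
    rw [hM, Nat.add_mul_mod_self_left, Nat.mod_eq_of_lt hl]
  have h2 : (t * rep W (a + b)) / W ^ a = t * rep W b := by
    rw [hM, Nat.add_mul_div_left _ _ (by omega), Nat.div_eq_of_lt hl, zero_add]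
  constructor
  · rw [← h1, hWa, ← Nat.and_mod_two_pow, h, Nat.zero_mod]
  · rw [← h2, hWa, ← Nat.and_div_two_pow, h, Nat.zero_div]

theorem land_leaf {v x : ℕ} (hx : x < 2 ^ (v + 7)) (h : x &&& (2 ^ v * 127) = 0) :
    x < 2 ^ v := by
  have h0 : 0 < 2 ^ v := pow_pos (by omega) v
  have h1 : (x &&& (2 ^ v * 127)) / 2 ^ v = 0 := by rw [h, Nat.zero_div]
  rw [Nat.and_div_two_pow, Nat.mul_div_cancel_left _ h0, show 127 = 2 ^ 7 - 1 from rfl,
    Nat.and_two_pow_sub_one_eq_mod] at h1
  have h2 : x / 2 ^ v < 2 ^ 7 := by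
    rw [pow_add] at hx
    exact Nat.div_lt_of_lt_mul hx
  rw [Nat.mod_eq_of_lt h2] at h1
  exact (Nat.div_eq_zero_iff_lt h0).1 h1

theorem msk_sound' {v W : ℕ} (hW : W = 2 ^ (v + 7)) : ∀ (p c r x : ℕ), x < W ^ cnt c r →
    x &&& (2 ^ v * 127 * rep W (cnt c r)) = 0 → ∀ B, eQ W p c r x B < 2 ^ v := by
  have h0 : 0 < 2 ^ v := pow_pos (by omega) v
  have hW2 : 2 ≤ W := by
    rw [hW, pow_add]
    omega
  have ht : 2 ^ v * 127 < W := by
    rw [hW, pow_add]
    omega
  intro p
  induction p with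
  | zero =>
    intro c r x hx h B
    unfold eQ
    split_ifs with hc
    · rw [hc.1, hc.2, cnt_zero_zero, rep_one hW2, mul_one] at h
      rw [hc.1, hc.2, cnt_zero_zero, pow_one, hW] at hx
      exact land_leaf hx h
    · exact h0
  | succ p ih =>
    intro c r x hx h B
    cases c with
    | zero =>
      unfold eQ
      split_ifs
      · exact ih 0 r x hx h B
      · exact h0
    | succ c =>
      unfold eQ
      by_cases hr : c + 1 ≤ r
      · rw [cnt_succ_le hr] at h hx
        obtain ⟨h1, h2⟩ := land_split hW ht h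
        split_ifs
        · refine ih _ _ _ ?_ h2 B
          rw [pow_add] at hx
          exact Nat.div_lt_of_lt_mul hx
        · exact ih _ _ _ (Nat.mod_lt _ (pow_pos (by omega) _)) h1 B
      · rw [cnt_succ_lt hr] at h hx
        split_ifs
        · exact h0
        · rw [Nat.mod_eq_of_lt hx]
          exact ih _ _ _ hx h B

theorem msk_sound {v W : ℕ} (hW : W = 2 ^ (v + 7)) {p c r x : ℕ} (hx : x < W ^ cnt c r)
    (h : msk W v (cnt c r) x = true) (B : Finset ℕ) : eQ W p c r x B < 2 ^ v :=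
  msk_sound' hW p c r x hx (Nat.eq_of_beq_eq_true h) B

/-- one level -/
theorem step2 {W v f p c r x : ℕ} (hW : W = 2 ^ (v + 7)) (hp : p < 128) (hcr : c ≤ r + 1)
    (hpr : c + (r + 1) ≤ p) (hf : c + (r + 1) ≤ f) (hx : x < W ^ cnt c (r + 1))
    (hok : msk W v (cnt c (r + 1)) x = true) :
    dqf W f c (r + 1) x < W ^ cnt c r ∧ ∀ B, Vd p c r B →
      eQ W p c r (dqf W f c (r + 1) x) B = Dg p (eQ W p c (r + 1) x) B := by
  have h0 : 0 < 2 ^ v := pow_pos (by omega) v
  have hv : p * 2 ^ v < W := by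
    rw [hW, pow_add, mul_comm]
    exact Nat.mul_lt_mul_of_pos_left hp h0
  have hW0 : 0 < W := lt_of_le_of_lt (Nat.zero_le _) hv
  have hvW : 2 ^ v ≤ W := by
    rw [hW, pow_add]
    omega
  have h1 : ∀ C, eQ W p c (r + 1) x C < 2 ^ v := fun C => msk_sound hW hx hok C
  have h2 := pk_eQ hW0 p c (r + 1) x hpr hx
  have h3 := dq_pk f c r p (eQ W p c (r + 1) x) (fun C => lt_of_lt_of_le (h1 C) hvW)
    (by rw [min_eq_left hcr]; exact hf)
  rw [min_eq_left hcr, h2, ← dqf_eq hW0 f c (r + 1) x hcr hf hx] at h3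
  have h4 : ∀ C, Dg p (eQ W p c (r + 1) x) C < W := fun C =>
    lt_of_le_of_lt (Dg_le (fun C => (h1 C).le) C) hv
  rw [h3]
  exact ⟨pk_lt p c r _ h4, fun B hB => eQ_pk p c r _ B h4 hB⟩

/-- all levels -/
theorem run2_sound {W v f m K n D : ℕ} {F : T} (hm : 2 ≤ m) (hK : 0 < K) (hn : m ≤ n + 1)
    (hW : W = 2 ^ (v + 7)) (hp' : K + m - 2 + 1 < 128) :
    ∀ (j x : ℕ), m - 1 + (n + j) ≤ K + m - 2 + 1 → m - 1 + (n + j) ≤ f →
      x < W ^ cnt (m - 1) (n + j) →
      run2 W v f (m - 1) D (K + m - 2 + 1) F j (n + j) x = true →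
      ∀ B ∈ Lv K n, Bl m K B →
        Dwi (K + m - 2) j (Vq W (K + m - 2 + 1) (m - 1) (n + j) x) B =
          (D * ev F (K + m - 2 + 1) B : ℝ) / ex B := by
  intro j
  induction j with
  | zero =>
    intro x _ _ _ hr B _ _
    have h1 := chk_sound F (K + m - 2 + 1) (m - 1) n x hr B
    change (eQ W (K + m - 2 + 1) (m - 1) n x B : ℝ) / ex B = _
    rw [h1]
    push_cast
    rfl
  | succ j ih =>
    intro x hp hf hx hr B hB hb
    have hr' : cond (msk W v (cnt (m - 1) (n + j + 1)) x)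
      (run2 W v f (m - 1) D (K + m - 2 + 1) F j (n + j) (dqf W f (m - 1) (n + j + 1) x)) false =
        true := hr
    obtain ⟨h1, h2⟩ := cond_tt hr'
    obtain ⟨h3, h4⟩ := step2 (r := n + j) hW hp' (by omega) hp hf hx h1
    rw [Dwi_succ']
    have h5 := Dwi_congr hK hm j n (Dw (K + m - 2) (Vq W (K + m - 2 + 1) (m - 1) (n + (j + 1)) x))
      (Vq W (K + m - 2 + 1) (m - 1) (n + j) (dqf W f (m - 1) (n + j + 1) x)) (by
        intro C hC hc
        refine Dw_Vq (h4 C ?_)
        have := Vd_of (by omega) hK hC hc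
        rwa [show K - 1 + m = K + m - 2 + 1 by omega] at this) B hB hb
    rw [h5]
    exact ih _ (by omega) (by omega) h3 h2 B hB hb

/-! ### positivity -/

theorem rep_pk {W : ℕ} (hW : 2 ≤ W) : ∀ (p c r : ℕ), c + r ≤ p →
    pk W p c r (fun _ => 1) = rep W (cnt c r) := by
  intro p
  induction p with
  | zero =>
    intro c r h
    obtain rfl : c = 0 := by omega
    obtain rfl : r = 0 := by omega
    unfold pk
    rw [if_pos ⟨rfl, rfl⟩, cnt_zero_zero, rep_one hW]
  | succ p ih =>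
    intro c r h
    cases c with
    | zero =>
      rcases Nat.eq_zero_or_pos r with hr | hr
      · subst hr
        unfold pk
        exact ih 0 0 (by omega)
      · obtain ⟨r', rfl⟩ : ∃ r', r = r' + 1 := ⟨r - 1, by omega⟩
        rw [pk_col_zero' _ _ _ (by omega), cnt_zero_succ, rep_zero hW]
    | succ c =>
      unfold pk
      rw [ih c r (by omega)]
      split_ifs with h1
      · rw [ih (c + 1) (r - (c + 1)) (by omega), cnt_succ_le h1, rep_add hW]
      · rw [cnt_succ_lt h1, add_zero]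

theorem add_rep {W v p c r y : ℕ} (hW : W = 2 ^ (v + 7)) (hpr : c + r ≤ p)
    (hy : y < W ^ cnt c r) (hok : msk W v (cnt c r) y = true) :
    y + rep W (cnt c r) < W ^ cnt c r ∧
      ∀ B, Vd p c r B → 1 ≤ eQ W p c r (y + rep W (cnt c r)) B := by
  have h0 : 0 < 2 ^ v := pow_pos (by omega) v
  have hW2 : 2 ≤ W := by
    rw [hW, pow_add]
    omega
  have hvW : 2 ^ v + 1 ≤ W := by
    rw [hW, pow_add]
    omega
  have h1 : ∀ C, eQ W p c r y C + 1 < W := fun C => by
    have := msk_sound (p := p) hW hy hok C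
    omega
  have h2 : y + rep W (cnt c r) = pk W p c r (fun C => eQ W p c r y C + 1) := by
    rw [pk_add, rep_pk hW2 p c r hpr]
    congr 1
    exact (pk_eQ (by omega) p c r y hpr hy).symm
  rw [h2]
  refine ⟨pk_lt p c r _ h1, fun B hB => ?_⟩
  rw [eQ_pk p c r _ B h1 hB]
  omega

/-- **The certificate at the threshold**, packed. The data are `y`; the function is `y` with `1` added to
all digits. -/
theorem threshold_of_run2 {m W v f D y : ℕ} (hm : 4 ≤ m) (hm' : m < 43) (hD : 0 < D)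
    (hW : W = 2 ^ (v + 7)) (hf : 3 * m ≤ f)
    (hy : Nat.ble (Nat.succ y) (pw W (m - 1) (2 * m - 3)) = true)
    (hy' : msk W v (cnt (m - 1) (2 * m - 3)) y = true)
    (hr : run2 W v f (m - 1) D (3 * m - 4 + 1)
      (Cert.ui (3 * m - 4 + 1) m (Cert.t0 (m - 1))) (m - 3) (2 * m - 3)
        (Nat.add y (rep W (cnt (m - 1) (2 * m - 3)))) = true) :
    Threshold m := by
  have hwl : 2 * m - 2 - 1 + m = 3 * m - 4 + 1 := by omega
  have hwl' : 2 * m - 2 + m - 2 = 3 * m - 4 := by omega
  have hN : m + (m - 3) = 2 * m - 3 := by omega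
  have hc : 0 < ex (range (2 * m - 2)) := ex_pos _
  have hD' : (0 : ℝ) < D := by exact_mod_cast hD
  have hm0 : (0 : ℝ) < m.factorial := by exact_mod_cast m.factorial_pos
  obtain ⟨hx, hpos⟩ := add_rep (p := 3 * m - 4 + 1) hW (by omega)
    (Nat.le_of_ble_eq_true hy : y < W ^ cnt (m - 1) (2 * m - 3)) hy'
  generalize hxx : y + rep W (cnt (m - 1) (2 * m - 3)) = x at hx hpos
  have hr1 : run2 W v f (m - 1) D (3 * m - 4 + 1)
      (Cert.ui (3 * m - 4 + 1) m (Cert.t0 (m - 1))) (m - 3) (2 * m - 3) x = true := by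
    rw [← hxx]
    exact hr
  refine ⟨2 * m - 2, fun B => (ex (range (2 * m - 2)) / (D * m.factorial)) *
    Vq W (3 * m - 4 + 1) (m - 1) (2 * m - 3) x B, by omega, ?_, ?_⟩
  · intro B hB hb
    have hB' : B ⊆ range (2 * m - 2 - 1 + m) := fun x hx => mem_range.2 (hb x hx)
    have h0 := run2_sound (m := m) (K := 2 * m - 2) (n := m) (D := D) (f := f) (W := W) (v := v)
      (F := Cert.ui (3 * m - 4 + 1) m (Cert.t0 (m - 1))) (by omega) (by omega) (by omega)
      hW (by omega) (m - 3) x (by omega) (by omega) (by rwa [hN])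
      (by rw [hwl', hN]; exact hr1) B hB hb
    rw [hwl', hN] at h0
    rw [hwl', Dwi_smul]
    change ex (range (2 * m - 2)) / (D * m.factorial) *
      (Dwi (3 * m - 4) (m - 3) (Vq W (3 * m - 4 + 1) (m - 1) (2 * m - 3) x) B) = 1
    rw [h0]
    have h1 := Cert.ev_ui (K := 2 * m - 2) (m := m) (by omega) (by omega) m B hB hB'
    rw [hwl] at h1
    have h2 := (ex_pos B).ne'
    have h3 : (ev (Cert.ui (3 * m - 4 + 1) m (Cert.t0 (m - 1))) (3 * m - 4 + 1) B : ℝ) =
        m.factorial * ex B / ex (range (2 * m - 2)) := by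
      rw [h1]
      field_simp
    rw [h3]
    field_simp
  · intro B hB hb
    have hv := Vd_of (m := m) (by omega) (by omega) hB hb
    rw [hwl, hN] at hv
    have h5 := hpos B hv
    have h6 : (0 : ℝ) < eQ W (3 * m - 4 + 1) (m - 1) (2 * m - 3) x B := by exact_mod_cast h5
    exact mul_pos (div_pos hc (mul_pos hD' hm0)) (div_pos h6 (ex_pos B))

end Pool.JM.Pack
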